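import Mathlib

/-!
# The k-restricted ET0L hierarchy collapses at k = 2 (MP_4de4a9_lc)
-/

set_option autoImplicit false
set_option linter.unusedSectionVars false
set_option linter.unusedTactic false

namespace Pool.Agent.Results.MP_4de4a9_lc.CollapseTwo

/-- `Par h x y`: the word `y` arises from the word `x` by rewriting every letter occurrence `c` in
`x`, simultaneously and independently of the other occurrences, to some word of `h c` -/
inductive Par {α β : Type} (h : α → Set (List β)) : List α → List β → Prop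
  | nil : Par h [] []
  | cons {c : α} {x : List α} {u y : List β} : u ∈ h c → Par h x y → Par h (c :: x) (u ++ y)

/-- An ET0L system over letters from `α`: a finite alphabet `alph`, a finite nonempty list of
tables, an axiom `ax` (a nonempty word) and a terminal alphabet `term`. (Values of tables at
letters outside of `alph` are irrelevant.) -/
structure ET0L (α : Type) where
  /-- the alphabet -/
  alph : Finset α
  /-- the tables -/
  tables : List (α → Finset (List α))
  /-- the axiom -/
  ax : List α
  /-- the terminal alphabet -/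
  term : Finset α
  tables_ne : tables ≠ []
  ax_ne : ax ≠ []
  ax_alph : ∀ c ∈ ax, c ∈ alph
  term_alph : term ⊆ alph
  img_ne : ∀ h ∈ tables, ∀ c ∈ alph, (h c).Nonempty
  img_alph : ∀ h ∈ tables, ∀ c ∈ alph, ∀ u ∈ h c, ∀ d ∈ u, d ∈ alph

/-- a derivation step -/
def ET0L.Step {α : Type} (G : ET0L α) (x y : List α) : Prop :=
  ∃ h ∈ G.tables, Par (fun c => (h c : Set (List α))) x y

/-- the language of `G` -/
def ET0L.lang {α : Type} (G : ET0L α) : Set (List α) :=
  {w | (∀ c ∈ w, c ∈ G.term) ∧ Relation.ReflTransGen G.Step G.ax w}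

/-- in every table at most `k` letters of the alphabet are active -/
def ET0L.Restricted {α : Type} [DecidableEq α] (G : ET0L α) (k : ℕ) : Prop :=
  ∀ h ∈ G.tables, (G.alph.filter (fun c => h c ≠ {[c]})).card ≤ k

/-- the family of the languages of the `k`-restricted ET0L systems -/
def Fam (k : ℕ) : Set (Set (List ℕ)) :=
  {L | ∃ G : ET0L ℕ, G.Restricted k ∧ G.lang = L}

/-! ### Parallel substitutions -/

section Par

variable {α β γ : Type}

theorem Par.append {h : α → Set (List β)} {x x' : List α} {y y' : List β}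
    (H : Par h x y) (H' : Par h x' y') : Par h (x ++ x') (y ++ y') := by
  induction H with
  | nil => simpa using H'
  | cons hu _ ih => rw [List.cons_append, List.append_assoc]; exact Par.cons hu ih

theorem par_append {h : α → Set (List β)} {x x' : List α} {z : List β}
    (H : Par h (x ++ x') z) : ∃ y y', z = y ++ y' ∧ Par h x y ∧ Par h x' y' := by
  induction x generalizing z with
  | nil => exact ⟨[], z, rfl, Par.nil, H⟩
  | cons c x ih =>
    cases H with
    | cons hu H =>
      rename_i u y
      obtain ⟨y1, y2, rfl, h1, h2⟩ := ih H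
      exact ⟨u ++ y1, y2, by simp, Par.cons hu h1, h2⟩

theorem par_nil {h : α → Set (List β)} {z : List β} (H : Par h [] z) : z = [] := by
  cases H; rfl

theorem par_single {h : α → Set (List β)} {c : α} {z : List β} : Par h [c] z ↔ z ∈ h c := by
  constructor
  · intro H
    cases H with
    | cons hu H => rw [par_nil H, List.append_nil]; exact hu
  · intro H
    have := Par.cons H (Par.nil (h := h))
    simpa using this

theorem Par.mono {h h' : α → Set (List β)} {x : List α} {y : List β}
    (H : Par h x y) (hh : ∀ c ∈ x, h c ⊆ h' c) : Par h' x y := by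
  induction H with
  | nil => exact Par.nil
  | cons hu _ ih =>
    exact Par.cons (hh _ (by simp) hu) (ih fun c hc => hh c (by simp [hc]))

theorem par_id {h : α → Set (List α)} {x : List α} (hx : ∀ c ∈ x, h c = {[c]}) {y : List α} :
    Par h x y ↔ y = x := by
  constructor
  · intro H
    induction H with
    | nil => rfl
    | cons hu _ ih =>
      rw [hx _ (by simp)] at hu
      rw [Set.mem_singleton_iff.1 hu, ih fun c hc => hx c (by simp [hc])]
      rfl
  · rintro rfl
    induction y with
    | nil => exact Par.nil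
    | cons c x ih =>
      exact Par.cons (u := [c]) (by rw [hx c (by simp)]; rfl) (ih fun c hc => hx c (by simp [hc]))

/-- letters of the image come from images of letters -/
theorem Par.mem {h : α → Set (List β)} {x : List α} {y : List β} (H : Par h x y) {b : β}
    (hb : b ∈ y) : ∃ c ∈ x, ∃ u ∈ h c, b ∈ u := by
  induction H with
  | nil => simp at hb
  | cons hu _ ih =>
    rcases List.mem_append.1 hb with hb | hb
    · exact ⟨_, by simp, _, hu, hb⟩
    · obtain ⟨c, hc, u, hu, hb⟩ := ih hb
      exact ⟨c, by simp [hc], u, hu, hb⟩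

/-- each letter contributes to the image -/
theorem Par.mem_left {h : α → Set (List β)} {x : List α} {y : List β} (H : Par h x y) {c : α}
    (hc : c ∈ x) : ∃ u ∈ h c, ∀ b ∈ u, b ∈ y := by
  induction H with
  | nil => simp at hc
  | cons hu _ ih =>
    rename_i c' x' u' y' _
    rcases List.mem_cons.1 hc with rfl | hc
    · exact ⟨u', hu, fun b hb => List.mem_append_left _ hb⟩
    · obtain ⟨u, hu, hb⟩ := ih hc
      exact ⟨u, hu, fun b hb' => List.mem_append_right _ (hb b hb')⟩

theorem par_total {h : α → Set (List β)} (x : List α) (hx : ∀ c ∈ x, (h c).Nonempty) :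
    ∃ y, Par h x y := by
  induction x with
  | nil => exact ⟨[], Par.nil⟩
  | cons c x ih =>
    obtain ⟨u, hu⟩ := hx c (by simp)
    obtain ⟨y, hy⟩ := ih fun c hc => hx c (by simp [hc])
    exact ⟨u ++ y, Par.cons hu hy⟩

end Par

/-! ### Runs: sequences of parallel substitutions -/

section Run

variable {α : Type}

/-- `Run hs x z`: applying the substitutions of the list `hs` one after the other can turn `x`
into `z` -/
def Run : List (α → Set (List α)) → List α → List α → Prop
  | [], x, z => z = x
  | h :: hs, x, z => ∃ y, Par h x y ∧ Run hs y z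

theorem run_app {P Q : List (α → Set (List α))} {x z : List α} :
    Run (P ++ Q) x z ↔ ∃ y, Run P x y ∧ Run Q y z := by
  induction P generalizing x with
  | nil => simp [Run]
  | cons h P ih =>
    simp only [List.cons_append, Run, ih]
    constructor
    · rintro ⟨y, h1, y', h2, h3⟩
      exact ⟨y', ⟨y, h1, h2⟩, h3⟩
    · rintro ⟨y', ⟨y, h1, h2⟩, h3⟩
      exact ⟨y, h1, y', h2, h3⟩

theorem run_nil {P : List (α → Set (List α))} {z : List α} : Run P [] z ↔ z = [] := by
  induction P with
  | nil => simp [Run]
  | cons h P ih =>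
    simp only [Run]
    constructor
    · rintro ⟨y, h1, h2⟩
      rw [par_nil h1] at h2
      exact ih.1 h2
    · rintro rfl
      exact ⟨[], Par.nil, ih.2 rfl⟩

theorem run_append {P : List (α → Set (List α))} {x x' z : List α} :
    Run P (x ++ x') z ↔ ∃ y y', z = y ++ y' ∧ Run P x y ∧ Run P x' y' := by
  induction P generalizing x x' with
  | nil =>
    simp only [Run]
    constructor
    · rintro rfl; exact ⟨x, x', rfl, rfl, rfl⟩
    · rintro ⟨y, y', rfl, rfl, rfl⟩; rfl
  | cons h P ih =>
    simp only [Run]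
    constructor
    · rintro ⟨y, h1, h2⟩
      obtain ⟨y1, y2, rfl, h3, h4⟩ := par_append h1
      obtain ⟨z1, z2, rfl, h5, h6⟩ := ih.1 h2
      exact ⟨z1, z2, rfl, ⟨y1, h3, h5⟩, ⟨y2, h4, h6⟩⟩
    · rintro ⟨z1, z2, rfl, ⟨y1, h3, h5⟩, ⟨y2, h4, h6⟩⟩
      exact ⟨y1 ++ y2, h3.append h4, ih.2 ⟨z1, z2, rfl, h5, h6⟩⟩

/-- a run acts letter by letter -/
theorem run_par {P : List (α → Set (List α))} {x z : List α} :
    Run P x z ↔ Par (fun c => {v | Run P [c] v}) x z := by
  induction x generalizing z with
  | nil =>
    rw [run_nil]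
    constructor
    · rintro rfl; exact Par.nil
    · exact par_nil
  | cons c x ih =>
    rw [show c :: x = [c] ++ x from rfl, run_append]
    constructor
    · rintro ⟨z1, z2, rfl, h1, h2⟩
      exact Par.cons h1 (ih.1 h2)
    · intro H
      cases H with
      | cons hu H => exact ⟨_, _, rfl, hu, ih.2 H⟩

/-- a run that fixes all letters of `x` fixes `x` -/
theorem run_fix {P : List (α → Set (List α))} {x z : List α}
    (hP : ∀ h ∈ P, ∀ c ∈ x, h c = {[c]}) : Run P x z ↔ z = x := by
  induction P with
  | nil => simp [Run]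
  | cons h P ih =>
    simp only [Run]
    have h1 := ih fun h' hh' => hP h' (by simp [hh'])
    constructor
    · rintro ⟨y, h2, h3⟩
      rw [par_id (hP h (by simp))] at h2
      subst h2
      exact h1.1 h3
    · rintro rfl
      exact ⟨z, (par_id (hP h (by simp))).2 rfl, h1.2 rfl⟩

end Run

/-! ### One active letter is not enough -/

section Lower

/-- the word `0^n 1^n 2^n` -/
def W (n : ℕ) : List ℕ := List.replicate n 0 ++ (List.replicate n 1 ++ List.replicate n 2)

theorem count_W {n a : ℕ} (ha : a < 3) : List.count a (W n) = n := by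
  unfold W
  rw [List.count_append, List.count_append, List.count_replicate, List.count_replicate,
    List.count_replicate]
  interval_cases a <;> simp

theorem length_W (n : ℕ) : (W n).length = 3 * n := by
  unfold W; simp; ring

theorem sorted_W (n : ℕ) : (W n).Pairwise (· ≤ ·) := by
  unfold W
  refine List.pairwise_append.2 ⟨?_, List.pairwise_append.2 ⟨?_, ?_, ?_⟩, ?_⟩
  · exact List.pairwise_replicate.2 (Or.inr le_rfl)
  · exact List.pairwise_replicate.2 (Or.inr le_rfl)
  · exact List.pairwise_replicate.2 (Or.inr le_rfl)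
  · intro a ha b hb
    rw [List.eq_of_mem_replicate ha, List.eq_of_mem_replicate hb]; omega
  · intro a ha b hb
    rw [List.eq_of_mem_replicate ha]; omega

/-- a factor of `W n` containing `0` and `2` has length at least `n` -/
theorem span_W {n : ℕ} {p v q : List ℕ} (h : W n = p ++ (v ++ q)) (h0 : 0 ∈ v) (h2 : 2 ∈ v) :
    n ≤ v.length := by
  have hs := sorted_W n
  rw [h] at hs
  have h3 := List.pairwise_append.1 hs
  have h4 := List.pairwise_append.1 h3.2.1
  have hp : List.count 1 p = 0 := by
    rw [List.count_eq_zero]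
    intro h1
    have := h3.2.2 1 h1 0 (by simp [h0])
    omega
  have hq : List.count 1 q = 0 := by
    rw [List.count_eq_zero]
    intro h1
    have := h4.2.2 2 h2 1 h1
    omega
  have := count_W (n := n) (a := 1) (by omega)
  rw [h, List.count_append, List.count_append, hp, hq] at this
  have h5 := List.count_le_length (a := 1) (l := v)
  omega

/-- the word is over `D` and one of the letters `0, 1, 2` is missing -/
def Ok (D : Set ℕ) (v : List ℕ) : Prop := (∀ l ∈ v, l ∈ D) ∧ ∃ a < 3, a ∉ v

theorem Ok.left {D : Set ℕ} {u v : List ℕ} (h : Ok D (u ++ v)) : Ok D u := by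
  obtain ⟨h1, a, ha, h2⟩ := h
  exact ⟨fun l hl => h1 l (by simp [hl]), a, ha, fun h => h2 (by simp [h])⟩

theorem Ok.right {D : Set ℕ} {u v : List ℕ} (h : Ok D (u ++ v)) : Ok D v := by
  obtain ⟨h1, a, ha, h2⟩ := h
  exact ⟨fun l hl => h1 l (by simp [hl]), a, ha, fun h => h2 (by simp [h])⟩

/-- the yields of the letter `c` under the tables `hs` which are `Ok` -/
def Yl (D : Set ℕ) (hs : List (ℕ → Set (List ℕ))) : ℕ → Set (List ℕ) :=
  fun c => {v | Run hs [c] v ∧ Ok D v}

theorem par_ok {D : Set ℕ} {S : ℕ → Set (List ℕ)} {x z : List ℕ} (H : Par S x z) (hz : Ok D z) :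
    Par (fun c => {v | v ∈ S c ∧ Ok D v}) x z := by
  induction H with
  | nil => exact Par.nil
  | cons hu _ ih => exact Par.cons ⟨hu, hz.left⟩ (ih hz.right)

theorem yl_cons {D : Set ℕ} {h : ℕ → Set (List ℕ)} {hs : List (ℕ → Set (List ℕ))} {x z : List ℕ}
    (H : Par (Yl D (h :: hs)) x z) : ∃ y, Par h x y ∧ Par (Yl D hs) y z := by
  induction H with
  | nil => exact ⟨[], Par.nil, Par.nil⟩
  | cons hu _ ih =>
    obtain ⟨y, h1, h2⟩ := ih
    obtain ⟨⟨y', h3, h4⟩, h5⟩ := hu
    refine ⟨y' ++ y, ?_, (par_ok (run_par.1 h4) h5).append h2⟩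
    have := h3.append h1
    simpa using this

theorem yl_run {D : Set ℕ} {hs : List (ℕ → Set (List ℕ))} {x z : List ℕ}
    (H : Par (Yl D hs) x z) : Run hs x z :=
  run_par.2 (H.mono fun _ _ _ hv => hv.1)

/-- if a parse is not `Ok` then some letter has a yield which is not `Ok` -/
theorem par_not_ok {D : Set ℕ} {S : ℕ → Set (List ℕ)} {x z : List ℕ} (H : Par S x z)
    (hz : ¬ Par (fun c => {v | v ∈ S c ∧ Ok D v}) x z) :
    ∃ c ∈ x, ∃ v ∈ S c, ¬ Ok D v ∧ ∃ p q, z = p ++ (v ++ q) := by
  induction H with
  | nil => exact absurd Par.nil hz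
  | cons hu h1 ih =>
    rename_i c x u y
    by_cases h2 : Ok D u
    · have h3 : ¬ Par (fun c => {v | v ∈ S c ∧ Ok D v}) x y := fun h3 => hz (Par.cons ⟨hu, h2⟩ h3)
      obtain ⟨c', hc', v, hv, hv', p, q, rfl⟩ := ih h3
      exact ⟨c', by simp [hc'], v, hv, hv', u ++ p, q, by simp⟩
    · exact ⟨c, by simp, u, hu, h2, [], y, by simp⟩

/-- decomposition of a parse at an occurrence -/
theorem par_split {β : Type} {S : ℕ → Set (List β)} {x : List ℕ} {z : List β} (H : Par S x z)
    {d : ℕ} (hd : d ∈ x) : ∃ x1 x2 z1 v z2, x = x1 ++ d :: x2 ∧ z = z1 ++ (v ++ z2) ∧ Par S x1 z1 ∧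
      v ∈ S d ∧ Par S x2 z2 := by
  obtain ⟨x1, x2, rfl⟩ := List.append_of_mem hd
  obtain ⟨z1, z', rfl, h1, h2⟩ := par_append H
  cases h2 with
  | cons hu h2 => exact ⟨x1, x2, z1, _, _, rfl, rfl, h1, hu, h2⟩

open Classical in
/-- exchange all yields of the letter `d` -/
theorem par_exchange {S : ℕ → Set (List ℕ)} {x z : List ℕ} (H : Par S x z) (d : ℕ) (V : List ℕ)
    (v : ℕ → ℕ) (hv : ∀ u ∈ S d, ∀ a < 3, List.count a u = v a) :
    ∃ z', Par (fun c => if c = d then {V} else S c) x z' ∧ (∀ l ∈ z', l ∈ z ∨ l ∈ V) ∧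
      ∀ a < 3, List.count a z + List.count d x * List.count a V =
        List.count a z' + List.count d x * v a := by
  induction H with
  | nil => exact ⟨[], Par.nil, by simp, by simp⟩
  | cons hu h1 ih =>
    rename_i c x u y
    obtain ⟨z', h2, h3, h4⟩ := ih
    by_cases hc : c = d
    · subst hc
      refine ⟨V ++ z', Par.cons (by simp) h2, ?_, ?_⟩
      · intro l hl
        rcases List.mem_append.1 hl with hl | hl
        · exact Or.inr hl
        · rcases h3 l hl with h | h
          · exact Or.inl (by simp [h])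
          · exact Or.inr h
      · intro a ha
        have h5 := h4 a ha
        have h6 := hv u hu a ha
        rw [List.count_append, List.count_append, List.count_cons_self, h6]
        linear_combination h5
    · refine ⟨u ++ z', Par.cons (by simpa [hc] using hu) h2, ?_, ?_⟩
      · intro l hl
        rcases List.mem_append.1 hl with hl | hl
        · exact Or.inl (by simp [hl])
        · rcases h3 l hl with h | h
          · exact Or.inl (by simp [h])
          · exact Or.inr h
      · intro a ha
        have h5 := h4 a ha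
        rw [List.count_append, List.count_append, List.count_cons_of_ne hc]
        omega

theorem run_length {M : ℕ} {hs : List (ℕ → Set (List ℕ))}
    (hM : ∀ h ∈ hs, ∀ c, ∀ u ∈ h c, u.length ≤ M) {x z : List ℕ} (H : Run hs x z) :
    z.length ≤ x.length * M ^ hs.length := by
  induction hs generalizing x with
  | nil => simp only [Run] at H; subst H; simp
  | cons h hs ih =>
    obtain ⟨y, h1, h2⟩ := H
    have h3 := ih (fun h' hh' => hM h' (by simp [hh'])) h2
    have h4 : y.length ≤ x.length * M := by
      clear h2 h3 ih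
      have hMh := hM h (by simp)
      induction h1 with
      | nil => simp
      | cons hu _ ih =>
        have := hMh _ _ hu
        rw [List.length_append, List.length_cons]
        nlinarith
    calc z.length ≤ y.length * M ^ hs.length := h3
      _ ≤ (x.length * M) * M ^ hs.length := Nat.mul_le_mul_right _ h4
      _ = x.length * M ^ (h :: hs).length := by rw [List.length_cons, pow_succ]; ring

variable {tabs : Set (ℕ → Set (List ℕ))} {act : (ℕ → Set (List ℕ)) → ℕ} {ω : List ℕ} {D : Set ℕ}

theorem yield_counts (hL : ∀ w, (∀ l ∈ w, l ∈ D) → (∃ hs, (∀ h ∈ hs, h ∈ tabs) ∧ Run hs ω w) →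
      ∃ n, w = W n)
    {n : ℕ} {pre hs : List (ℕ → Set (List ℕ))} {x : List ℕ}
    (ht : ∀ h ∈ pre ++ hs, h ∈ tabs) (h1 : Run pre ω x) (h2 : Par (Yl D hs) x (W n)) {d : ℕ}
    (hd : d ∈ x) : ∃ v : ℕ → ℕ, (∃ a < 3, v a = 0) ∧
      ∀ u ∈ Yl D hs d, ∀ a < 3, List.count a u = v a := by
  obtain ⟨x1, x2, z1, V, z2, rfl, hz, h3, h4, h5⟩ := par_split h2 hd
  refine ⟨fun a => List.count a V, ?_, ?_⟩
  · obtain ⟨a, ha, h⟩ := h4.2.2
    exact ⟨a, ha, List.count_eq_zero.2 h⟩
  · intro u hu
    have hD : ∀ l ∈ z1 ++ (u ++ z2), l ∈ D := by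
      intro l hl
      have hW : ∀ c ∈ x1 ++ d :: x2, ∀ v ∈ Yl D hs c, ∀ l ∈ v, l ∈ D := fun c _ v hv => hv.2.1
      rcases List.mem_append.1 hl with hl | hl
      · obtain ⟨c, hc, v, hv, hl⟩ := h3.mem hl
        exact hv.2.1 l hl
      · rcases List.mem_append.1 hl with hl | hl
        · exact hu.2.1 l hl
        · obtain ⟨c, hc, v, hv, hl⟩ := h5.mem hl
          exact hv.2.1 l hl
    have hP : Par (Yl D hs) (x1 ++ d :: x2) (z1 ++ (u ++ z2)) := h3.append (Par.cons hu h5)
    obtain ⟨m, hm⟩ := hL _ hD ⟨pre ++ hs, ht, run_app.2 ⟨_, h1, yl_run hP⟩⟩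
    have hc1 : ∀ a < 3, List.count a z1 + (List.count a u + List.count a z2) = m := by
      intro a ha
      rw [← List.count_append, ← List.count_append, hm, count_W ha]
    have hc2 : ∀ a < 3, List.count a z1 + (List.count a V + List.count a z2) = n := by
      intro a ha
      rw [← List.count_append, ← List.count_append, ← hz, count_W ha]
    obtain ⟨a, ha, ha'⟩ := h4.2.2
    obtain ⟨b, hb, hb'⟩ := hu.2.2
    have ha'' := List.count_eq_zero.2 ha'
    have hb'' := List.count_eq_zero.2 hb'
    have e1 := hc1 a ha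
    have e2 := hc1 b hb
    have e3 := hc2 a ha
    have e4 := hc2 b hb
    have hmn : m = n := by omega
    intro c hc
    have e5 := hc1 c hc
    have e6 := hc2 c hc
    show List.count c u = List.count c V
    omega

theorem nodup_act (hact : ∀ h ∈ tabs, ∀ c, c ≠ act h → h c = {[c]})
    (hL : ∀ w, (∀ l ∈ w, l ∈ D) → (∃ hs, (∀ h ∈ hs, h ∈ tabs) ∧ Run hs ω w) → ∃ n, w = W n)
    {n : ℕ} (hs : List (ℕ → Set (List ℕ))) : ∀ (pre : List (ℕ → Set (List ℕ))) (x : List ℕ),
    (∀ h ∈ pre ++ hs, h ∈ tabs) → Run pre ω x → Par (Yl D hs) x (W n) →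
    (∀ hs', (∀ h ∈ hs', h ∈ tabs) → hs'.length < (pre ++ hs).length → ∀ m, Run hs' ω (W m) →
      m < n) → (hs.map act).Nodup := by
  induction hs with
  | nil => intro _ _ _ _ _ _; simp
  | cons h1 hs ih =>
    intro pre x ht hpre hx hmin
    obtain ⟨y, hy1, hy2⟩ := yl_cons hx
    have ht1 : h1 ∈ tabs := ht h1 (by simp)
    have hrun : Run (pre ++ [h1]) ω y := run_app.2 ⟨x, hpre, y, hy1, rfl⟩
    rw [List.map_cons, List.nodup_cons]
    refine ⟨?_, ih (pre ++ [h1]) y (by simpa using ht) hrun hy2 (by simpa using hmin)⟩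
    intro hmem
    obtain ⟨as, bs, hab, has⟩ := List.eq_append_cons_of_mem hmem
    obtain ⟨mid, l2, rfl, hmid, hl2⟩ := List.map_eq_append_iff.1 hab
    obtain ⟨hj, rest, rfl, hj1, hrest⟩ := List.map_eq_cons_iff.1 hl2
    have htj : hj ∈ tabs := ht hj (by simp)
    -- the active letter is present
    have hdx : act h1 ∈ x := by
      by_contra hdx
      have : y = x := (par_id (fun c hc => hact h1 ht1 c (fun h => hdx (h ▸ hc)))).1 hy1
      subst this
      have h3 := hmin (pre ++ (mid ++ hj :: rest)) (fun h hh => ht h (by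
        simp only [List.mem_append, List.mem_cons] at hh ⊢; tauto)) (by simp) n
        (run_app.2 ⟨y, hpre, yl_run hy2⟩)
      omega
    obtain ⟨z, hz1, hz2⟩ := run_app.1 (yl_run hy2)
    have hdz : act h1 ∈ z := by
      by_contra hdz
      obtain ⟨z', hz3, hz4⟩ := hz2
      have : z' = z := (par_id (fun c hc => hact hj htj c (fun h => hdz (by
        rw [← hj1, ← h]; exact hc)))).1 hz3
      subst this
      have h3 := hmin (pre ++ (h1 :: (mid ++ rest))) (fun h hh => ht h (by
        simp only [List.mem_append, List.mem_cons] at hh ⊢; tauto)) (by simp) n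
        (run_app.2 ⟨x, hpre, y, hy1, run_app.2 ⟨z', hz1, hz4⟩⟩)
      omega
    obtain ⟨V', hV1, hV2⟩ := (run_par.1 hz2).mem_left hdz
    obtain ⟨v, ⟨a, ha, hva⟩, hv⟩ := yield_counts hL ht hpre hx hdx
    obtain ⟨w', hw1, hw2, hw3⟩ := par_exchange hx (act h1) V' v hv
    have hwD : ∀ l ∈ w', l ∈ D := by
      have hWD : ∀ l ∈ W n, l ∈ D := by
        intro l hl
        obtain ⟨c, hc, u, hu, hl⟩ := hx.mem hl
        exact hu.2.1 l hl
      intro l hl
      rcases hw2 l hl with h | h
      · exact hWD l h
      · exact hWD l (hV2 l h)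
    have hrw : Run (mid ++ hj :: rest) x w' := by
      refine run_par.2 (hw1.mono ?_)
      intro c _ u hu
      by_cases hc : c = act h1
      · subst hc
        simp only [if_true, Set.mem_singleton_iff] at hu
        subst hu
        refine run_app.2 ⟨[act h1], ?_, hV1⟩
        refine (run_fix ?_).2 rfl
        intro h hh c hc
        rw [List.mem_singleton] at hc
        subst hc
        refine hact h (ht h (by simp [hh])) _ ?_
        intro he
        exact has (by rw [← hmid, he]; exact List.mem_map_of_mem hh)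
      · simp only [hc, if_false] at hu
        obtain ⟨⟨y', h5, h6⟩, _⟩ := hu
        have : y' = [c] := (par_id (fun c' hc' => hact h1 ht1 c' (by
          rw [List.mem_singleton] at hc'; subst hc'; exact hc))).1 h5
        subst this
        exact h6
    have hrw' : Run (pre ++ (mid ++ hj :: rest)) ω w' := run_app.2 ⟨x, hpre, hrw⟩
    have htt : ∀ h ∈ pre ++ (mid ++ hj :: rest), h ∈ tabs := fun h hh => ht h (by
        simp only [List.mem_append, List.mem_cons] at hh ⊢; tauto)
    obtain ⟨m, rfl⟩ := hL w' hwD ⟨_, htt, hrw'⟩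
    have hmn := hmin _ htt (by simp) m hrw'
    have h7 := hw3 a ha
    rw [count_W ha, count_W ha, hva] at h7
    omega

theorem lower_key (A : Finset ℕ) (hact : ∀ h ∈ tabs, act h ∈ A ∧ ∀ c, c ≠ act h → h c = {[c]})
    (hL : ∀ w, (∀ l ∈ w, l ∈ D) → (∃ hs, (∀ h ∈ hs, h ∈ tabs) ∧ Run hs ω w) → ∃ n, w = W n)
    (hWD : ∀ n, ∀ l ∈ W n, l ∈ D)
    {M : ℕ} (hM1 : 1 ≤ M) (hM : ∀ h ∈ tabs, ∀ c, ∀ u ∈ h c, u.length ≤ M)
    {n : ℕ} (pre : List (ℕ → Set (List ℕ))) : ∀ (hs : List (ℕ → Set (List ℕ))) (x : List ℕ),
    (∀ h ∈ pre ++ hs, h ∈ tabs) → Run pre ω x → Par (Yl D hs) x (W n) →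
    (∀ hs', (∀ h ∈ hs', h ∈ tabs) → hs'.length < (pre ++ hs).length → ∀ m, Run hs' ω (W m) →
      m < n) → n ≤ max ω.length M * M ^ A.card := by
  induction pre using List.reverseRecOn with
  | nil =>
    intro hs x ht hpre hx hmin
    have hnd := nodup_act (fun h hh => (hact h hh).2) hL hs [] x ht hpre hx hmin
    have hlen : hs.length ≤ A.card := by
      have h1 : (hs.map act).toFinset ⊆ A := by
        intro c hc
        rw [List.mem_toFinset, List.mem_map] at hc
        obtain ⟨h, hh, rfl⟩ := hc
        exact (hact h (ht h (by simp [hh]))).1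
      have h2 := Finset.card_le_card h1
      rw [List.toFinset_card_of_nodup hnd, List.length_map] at h2
      exact h2
    simp only [Run] at hpre
    subst hpre
    have h3 := run_length (M := M) (fun h hh => hM h (ht h (by simp [hh]))) (yl_run hx)
    rw [length_W] at h3
    calc n ≤ 3 * n := by omega
      _ ≤ x.length * M ^ hs.length := h3
      _ ≤ max x.length M * M ^ A.card :=
        Nat.mul_le_mul (le_max_left _ _) (Nat.pow_le_pow_right hM1 hlen)
  | append_singleton pre h ih =>
    intro hs x ht hpre hx hmin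
    have hnd := nodup_act (fun h hh => (hact h hh).2) hL hs (pre ++ [h]) x ht hpre hx hmin
    have hlen : hs.length ≤ A.card := by
      have h1 : (hs.map act).toFinset ⊆ A := by
        intro c hc
        rw [List.mem_toFinset, List.mem_map] at hc
        obtain ⟨h, hh, rfl⟩ := hc
        exact (hact h (ht h (by simp [hh]))).1
      have h2 := Finset.card_le_card h1
      rw [List.toFinset_card_of_nodup hnd, List.length_map] at h2
      exact h2
    obtain ⟨x', h1, x'', h2, h3⟩ := run_app.1 hpre
    simp only [Run] at h3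
    subst h3
    have h4 : Run (h :: hs) x' (W n) := ⟨x, h2, yl_run hx⟩
    by_cases h5 : Par (Yl D (h :: hs)) x' (W n)
    · exact ih (h :: hs) x' (by simpa using ht) h1 h5 (by simpa using hmin)
    · obtain ⟨c, hc, v, hv, hv', p, q, hpq⟩ := par_not_ok (run_par.1 h4) h5
      have h6 : ∀ a < 3, a ∈ v := by
        intro a ha
        by_contra hav
        refine hv' ⟨fun l hl => hWD n l ?_, a, ha, hav⟩
        rw [hpq]
        simp [hl]
      have h7 := span_W hpq (h6 0 (by omega)) (h6 2 (by omega))
      have h8 := run_length (M := M) (x := [c]) (z := v) (fun h' hh' => hM h' (ht h' (by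
        simp only [List.mem_append, List.mem_cons] at hh' ⊢; tauto))) hv
      rw [List.length_singleton, one_mul, List.length_cons, pow_succ] at h8
      calc n ≤ v.length := h7
        _ ≤ M ^ hs.length * M := h8
        _ = M * M ^ hs.length := mul_comm _ _
        _ ≤ max ω.length M * M ^ A.card :=
          Nat.mul_le_mul (le_max_right _ _) (Nat.pow_le_pow_right hM1 hlen)

theorem lower (A : Finset ℕ) (hact : ∀ h ∈ tabs, act h ∈ A ∧ ∀ c, c ≠ act h → h c = {[c]})
    (hL : ∀ w, ((∀ l ∈ w, l ∈ D) ∧ ∃ hs, (∀ h ∈ hs, h ∈ tabs) ∧ Run hs ω w) ↔ ∃ n, w = W n)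
    {M : ℕ} (hM1 : 1 ≤ M) (hM : ∀ h ∈ tabs, ∀ c, ∀ u ∈ h c, u.length ≤ M) : False := by
  classical
  set B := max ω.length M * M ^ A.card with hB
  have hex : ∃ T, ∃ hs : List (ℕ → Set (List ℕ)), (∀ h ∈ hs, h ∈ tabs) ∧ hs.length = T ∧
      ∃ n, B < n ∧ Run hs ω (W n) := by
    obtain ⟨_, hs, h1, h2⟩ := (hL (W (B + 1))).2 ⟨_, rfl⟩
    exact ⟨_, hs, h1, rfl, B + 1, by omega, h2⟩
  obtain ⟨hs, h1, h2, n, h3, h4⟩ := Nat.find_spec hex
  have hWD : ∀ n, ∀ l ∈ W n, l ∈ D := fun n => ((hL (W n)).2 ⟨n, rfl⟩).1
  have hmin : ∀ hs', (∀ h ∈ hs', h ∈ tabs) → hs'.length < (hs ++ []).length →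
      ∀ m, Run hs' ω (W m) → m < n := by
    intro hs' h5 h6 m h7
    rw [List.append_nil, h2] at h6
    by_contra h8
    exact Nat.find_min hex h6 ⟨hs', h5, rfl, m, by omega, h7⟩
  have h5 : Par (Yl D []) (W n) (W n) := by
    have : ∀ x : List ℕ, (∀ l ∈ x, l ∈ D) → Par (Yl D []) x x := by
      intro x hx
      induction x with
      | nil => exact Par.nil
      | cons c x ih =>
        refine Par.cons (u := [c]) ⟨rfl, ?_, ?_⟩ (ih fun l hl => hx l (by simp [hl]))
        · intro l hl
          rw [List.mem_singleton] at hl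
          subst hl
          exact hx _ (by simp)
        · by_cases hc : c = 0
          · exact ⟨1, by omega, by simp [hc]⟩
          · exact ⟨0, by omega, by simp [Ne.symm hc]⟩
    exact this _ (hWD n)
  have h6 := lower_key A hact (fun w hw1 hw2 => (hL w).1 ⟨hw1, hw2⟩) hWD hM1 hM hs [] (W n)
    (by simpa using h1) h4 h5 hmin
  omega

end Lower

/-! ### Further facts on parallel substitutions -/

section Par2

variable {α β γ : Type}

theorem par_congr {h h' : α → Set (List β)} {x : List α} (hh : ∀ c ∈ x, h c = h' c) {y : List β} :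
    Par h x y ↔ Par h' x y :=
  ⟨fun H => H.mono fun c hc => (hh c hc).subset, fun H => H.mono fun c hc => (hh c hc).superset⟩

theorem par_map {S : β → Set (List γ)} {g : α → β} {w : List α} {z : List γ} :
    Par S (w.map g) z ↔ Par (fun c => S (g c)) w z := by
  induction w generalizing z with
  | nil =>
    constructor
    · intro H; rw [par_nil H]; exact Par.nil
    · intro H; rw [par_nil H]; exact Par.nil
  | cons c w ih =>
    constructor
    · intro H
      cases H with
      | cons hu H => exact Par.cons hu (ih.1 H)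
    · intro H
      cases H with
      | cons hu H => exact Par.cons hu (ih.2 H)

theorem par_image {S : α → Set (List β)} {g : β → γ} {w : List α} {z : List γ} :
    Par (fun c => (List.map g) '' S c) w z ↔ ∃ w', Par S w w' ∧ z = w'.map g := by
  constructor
  · intro H
    induction H with
    | nil => exact ⟨[], Par.nil, rfl⟩
    | cons hu _ ih =>
      obtain ⟨v, hv, rfl⟩ := hu
      obtain ⟨w', h1, rfl⟩ := ih
      exact ⟨v ++ w', Par.cons hv h1, by simp⟩
  · rintro ⟨w', H, rfl⟩
    induction H with
    | nil => exact Par.nil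
    | cons hu _ ih =>
      rw [List.map_append]
      exact Par.cons ⟨_, hu, rfl⟩ ih

theorem par_det {g : α → β} {w : List α} {z : List β} :
    Par (fun c => {[g c]}) w z ↔ z = w.map g := by
  induction w generalizing z with
  | nil =>
    constructor
    · intro H; rw [par_nil H]; rfl
    · rintro rfl; exact Par.nil
  | cons c w ih =>
    constructor
    · intro H
      cases H with
      | cons hu H =>
        rw [Set.mem_singleton_iff.1 hu, ih.1 H]; rfl
    · rintro rfl
      exact Par.cons (u := [g c]) rfl (ih.2 rfl)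

theorem par_flatMap {h : α → Set (List β)} {F : β → List γ} {F' : α → List γ} {x : List α}
    {y : List β} (H : Par h x y) (hF : ∀ c ∈ x, ∀ u ∈ h c, u.flatMap F = F' c) :
    y.flatMap F = x.flatMap F' := by
  induction H with
  | nil => rfl
  | cons hu _ ih =>
    rw [List.flatMap_append, List.flatMap_cons, hF _ (by simp) _ hu,
      ih fun c hc => hF c (by simp [hc])]

/-- projection of a run-free substitution to another alphabet -/
theorem par_proj {h : α → Set (List α)} {F : α → List β} {S : β → Set (List β)} {x : List α}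
    {y : List α} (H : Par h x y) (hF : ∀ c ∈ x, ∀ u ∈ h c, Par S (F c) (u.flatMap F)) :
    Par S (x.flatMap F) (y.flatMap F) := by
  induction H with
  | nil => exact Par.nil
  | cons hu _ ih =>
    rw [List.flatMap_append, List.flatMap_cons]
    exact (hF _ (by simp) _ hu).append (ih fun c hc => hF c (by simp [hc]))

end Par2

/-! ### Systems controlled by deadlock pairs -/

section Protocol

/-- letters of the controlled system: data letters `d a`, control letters `p j`, evidence letters
`e j`, verification letters `v a` and the dead letter `f` -/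
inductive Lt (J D : Type)
  | d (a : D) : Lt J D
  | p (j : J) : Lt J D
  | e (j : J) : Lt J D
  | v (a : D) : Lt J D
  | f : Lt J D
  deriving DecidableEq

/-- names of the tables of the controlled system -/
inductive Tb (J D : Type)
  | A (j : J) : Tb J D
  | B (j j' : J) : Tb J D
  | R (j : J) : Tb J D
  | V (a : D) : Tb J D
  | Z : Tb J D

/-- a program: nodes, data letters, edges, for each node `j` the letter `dl j` rewritten there and
the finite set `sub j` of its images -/
structure Prog (J D : Type) where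
  Js : Finset J
  Ds : Finset D
  edges : Finset (J × J)
  start : J
  halt : J
  dl : J → D
  sub : J → Finset (List D)
  z0 : List D
  out : Finset D
  start_mem : start ∈ Js
  halt_mem : halt ∈ Js
  edges_mem : ∀ e ∈ edges, e.1 ∈ Js ∧ e.2 ∈ Js
  dl_mem : ∀ j ∈ Js, dl j ∈ Ds
  sub_mem : ∀ j ∈ Js, ∀ w ∈ sub j, ∀ a ∈ w, a ∈ Ds
  sub_ne : ∀ j ∈ Js, (sub j).Nonempty
  sub_not : ∀ j ∈ Js, ∀ w ∈ sub j, dl j ∉ w
  z0_mem : ∀ a ∈ z0, a ∈ Ds
  out_mem : out ⊆ Ds

variable {J D : Type} [DecidableEq J] [DecidableEq D]

/-- the substitution executed at node `j` -/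
def Prog.S (P : Prog J D) (j : J) : D → Set (List D) :=
  fun c => if c = P.dl j then (P.sub j : Set (List D)) else {[c]}

/-- reachable configurations of the program -/
inductive Prog.Reach (P : Prog J D) : J → List D → Prop
  | init : P.Reach P.start P.z0
  | step {j j' : J} {z z' : List D} : P.Reach j z → (j, j') ∈ P.edges → Par (P.S j) z z' →
      P.Reach j' z'

/-- the tables of the controlled system -/
noncomputable def Prog.tab (P : Prog J D) : Tb J D → Lt J D → Finset (List (Lt J D))
  | .A j, .d a => if a = P.dl j then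
      (P.sub j).image (fun w => w.map .d ++ (P.Js.erase j).toList.map .e) else {[.d a]}
  | .A j, .v a => if a = P.dl j then {[.f]} else {[.v a]}
  | .B j j', .p i => if i = j then {[.p j', .v (P.dl j)]} else {[.p i]}
  | .B j _, .e i => if i = j then {[.f]} else {[.e i]}
  | .R j, .e i => if i = j then {[]} else {[.e i]}
  | .R j, .p i => if i = j then {[.f]} else {[.p i]}
  | .V a, .v b => if b = a then {[]} else {[.v b]}
  | .V a, .d b => if b = a then {[.f]} else {[.d b]}
  | .Z, .p i => if i = P.halt then {[]} else {[.p i]}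
  | .Z, .e i => if i = P.halt then {[.f]} else {[.e i]}
  | _, c => {[c]}

/-- the names of the tables that are used -/
noncomputable def Prog.tbs (P : Prog J D) : List (Tb J D) :=
  P.Js.toList.map .A ++ P.edges.toList.map (fun e => .B e.1 e.2) ++ P.Js.toList.map .R ++
    P.Ds.toList.map .V ++ [.Z]

def Prog.alph (P : Prog J D) : Finset (Lt J D) :=
  insert .f (P.Ds.image .d ∪ P.Ds.image .v ∪ P.Js.image .p ∪ P.Js.image .e)

theorem Prog.mem_alph_d (P : Prog J D) {a : D} : .d a ∈ P.alph ↔ a ∈ P.Ds := by
  simp [Prog.alph]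
theorem Prog.mem_alph_v (P : Prog J D) {a : D} : .v a ∈ P.alph ↔ a ∈ P.Ds := by
  simp [Prog.alph]
theorem Prog.mem_alph_p (P : Prog J D) {a : J} : .p a ∈ P.alph ↔ a ∈ P.Js := by
  simp [Prog.alph]
theorem Prog.mem_alph_e (P : Prog J D) {a : J} : .e a ∈ P.alph ↔ a ∈ P.Js := by
  simp [Prog.alph]
theorem Prog.mem_alph_f (P : Prog J D) : .f ∈ P.alph := by
  simp [Prog.alph]

theorem Prog.tab_ne (P : Prog J D) {T : Tb J D} (hT : T ∈ P.tbs) (c : Lt J D) :
    (P.tab T c).Nonempty := by
  have hA : ∀ j, Tb.A j ∈ P.tbs → j ∈ P.Js := by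
    intro j hj; simpa [Prog.tbs] using hj
  cases T <;> cases c <;> simp only [Prog.tab] <;> try split_ifs
  all_goals first
    | exact Finset.singleton_nonempty _
    | exact (P.sub_ne _ (hA _ hT)).image _

theorem Prog.tab_alph (P : Prog J D) {T : Tb J D} (hT : T ∈ P.tbs) {c : Lt J D}
    (hc : c ∈ P.alph) : ∀ u ∈ P.tab T c, ∀ l ∈ u, l ∈ P.alph := by
  have hA : ∀ j, Tb.A j ∈ P.tbs → j ∈ P.Js := by
    intro j hj; simpa [Prog.tbs] using hj
  have hB : ∀ j j', Tb.B j j' ∈ P.tbs → (j, j') ∈ P.edges := by
    intro j j' hj; simpa [Prog.tbs] using hj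
  have hf := P.mem_alph_f
  intro u hu l hl
  cases T <;> cases c <;> simp only [Prog.tab] at hu <;> try split_ifs at hu
  all_goals try
    (rw [Finset.mem_singleton] at hu; subst hu; simp only [List.mem_singleton] at hl; subst hl
     first | exact hc | exact hf)
  all_goals try (rw [Finset.mem_singleton] at hu; subst hu; simp at hl; done)
  · rename_i j a h
    rw [Finset.mem_image] at hu
    obtain ⟨w, hw, rfl⟩ := hu
    rw [List.mem_append, List.mem_map, List.mem_map] at hl
    rcases hl with ⟨b, hb, rfl⟩ | ⟨b, hb, rfl⟩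
    · exact P.mem_alph_d.2 (P.sub_mem j (hA _ hT) w hw b hb)
    · rw [Finset.mem_toList, Finset.mem_erase] at hb
      exact P.mem_alph_e.2 hb.2
  · rename_i j j' i h
    rw [Finset.mem_singleton] at hu
    subst hu
    have h1 := P.edges_mem _ (hB _ _ hT)
    simp only [List.mem_cons, List.not_mem_nil, or_false] at hl
    rcases hl with rfl | rfl
    · exact P.mem_alph_p.2 h1.2
    · exact P.mem_alph_v.2 (P.dl_mem _ h1.1)

/-- the controlled system -/
noncomputable def Prog.sys (P : Prog J D) : ET0L (Lt J D) where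
  alph := P.alph
  tables := P.tbs.map P.tab
  ax := .p P.start :: P.z0.map .d
  term := P.out.image .d
  tables_ne := by simp [Prog.tbs]
  ax_ne := by simp
  ax_alph := by
    intro c hc
    rw [List.mem_cons, List.mem_map] at hc
    rcases hc with rfl | ⟨a, ha, rfl⟩
    · exact P.mem_alph_p.2 P.start_mem
    · exact P.mem_alph_d.2 (P.z0_mem a ha)
  term_alph := by
    intro c hc
    rw [Finset.mem_image] at hc
    obtain ⟨a, ha, rfl⟩ := hc
    exact P.mem_alph_d.2 (P.out_mem ha)
  img_ne := by
    intro h hh c _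
    rw [List.mem_map] at hh
    obtain ⟨T, hT, rfl⟩ := hh
    exact P.tab_ne hT c
  img_alph := by
    intro h hh c hc
    rw [List.mem_map] at hh
    obtain ⟨T, hT, rfl⟩ := hh
    exact P.tab_alph hT hc

theorem Prog.sys_restricted (P : Prog J D) : P.sys.Restricted 2 := by
  intro h hh
  change h ∈ P.tbs.map P.tab at hh
  rw [List.mem_map] at hh
  obtain ⟨T, hT, rfl⟩ := hh
  have key : ∃ a b, ∀ c, P.tab T c ≠ {[c]} → c = a ∨ c = b := by
    cases T with
    | A j =>
      refine ⟨.d (P.dl j), .v (P.dl j), ?_⟩
      intro c hc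
      cases c <;> simp only [Prog.tab, ne_eq, not_true_eq_false] at hc <;>
        simp only [Lt.d.injEq, Lt.v.injEq, reduceCtorEq, or_false, false_or]
      all_goals by_contra h; simp [h] at hc
    | B j j' =>
      refine ⟨.p j, .e j, ?_⟩
      intro c hc
      cases c <;> simp only [Prog.tab, ne_eq, not_true_eq_false] at hc <;>
        simp only [Lt.p.injEq, Lt.e.injEq, reduceCtorEq, or_false, false_or]
      all_goals by_contra h; simp [h] at hc
    | R j =>
      refine ⟨.p j, .e j, ?_⟩
      intro c hc
      cases c <;> simp only [Prog.tab, ne_eq, not_true_eq_false] at hc <;>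
        simp only [Lt.p.injEq, Lt.e.injEq, reduceCtorEq, or_false, false_or]
      all_goals by_contra h; simp [h] at hc
    | V a =>
      refine ⟨.d a, .v a, ?_⟩
      intro c hc
      cases c <;> simp only [Prog.tab, ne_eq, not_true_eq_false] at hc <;>
        simp only [Lt.d.injEq, Lt.v.injEq, reduceCtorEq, or_false, false_or]
      all_goals by_contra h; simp [h] at hc
    | Z =>
      refine ⟨.p P.halt, .e P.halt, ?_⟩
      intro c hc
      cases c <;> simp only [Prog.tab, ne_eq, not_true_eq_false] at hc <;>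
        simp only [Lt.p.injEq, Lt.e.injEq, reduceCtorEq, or_false, false_or]
      all_goals by_contra h; simp [h] at hc
  obtain ⟨a, b, hab⟩ := key
  refine (Finset.card_le_card (t := {a, b}) ?_).trans Finset.card_le_two
  intro c hc
  rw [Finset.mem_filter] at hc
  rw [Finset.mem_insert, Finset.mem_singleton]
  exact hab c hc.2

/-- data projection of a letter -/
def pd : Lt J D → List D
  | .d a => [a]
  | _ => []

/-- control projection of a letter -/
def pp : Lt J D → List J
  | .p j => [j]
  | _ => []

omit [DecidableEq J] [DecidableEq D] in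
theorem mem_pd {w : List (Lt J D)} {a : D} : a ∈ w.flatMap pd ↔ Lt.d a ∈ w := by
  rw [List.mem_flatMap]
  constructor
  · rintro ⟨c, hc, hac⟩
    cases c <;> simp [pd] at hac
    subst hac; exact hc
  · intro h
    exact ⟨_, h, by simp [pd]⟩

omit [DecidableEq J] [DecidableEq D] in
theorem mem_pp {w : List (Lt J D)} {j : J} : j ∈ w.flatMap pp ↔ Lt.p j ∈ w := by
  rw [List.mem_flatMap]
  constructor
  · rintro ⟨c, hc, hac⟩
    cases c <;> simp [pp] at hac
    subst hac; exact hc
  · intro h
    exact ⟨_, h, by simp [pp]⟩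

/-- deadlocked words -/
def Dead (w : List (Lt J D)) : Prop :=
  .f ∈ w ∨ (∃ j, .p j ∈ w ∧ .e j ∈ w) ∨ ∃ a, .d a ∈ w ∧ .v a ∈ w

/-- one step by the table named `T` -/
def Prog.St (P : Prog J D) (T : Tb J D) (x y : List (Lt J D)) : Prop :=
  Par (fun c => (P.tab T c : Set (List (Lt J D)))) x y

theorem Prog.St.dies {P : Prog J D} {T : Tb J D} {w w' : List (Lt J D)} (H : P.St T w w')
    {c : Lt J D} (hc : c ∈ w) (hf : ∀ u ∈ P.tab T c, .f ∈ u) : .f ∈ w' := by
  obtain ⟨u, hu, hb⟩ := Par.mem_left H hc
  exact hb _ (hf u hu)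

theorem Prog.St.stays {P : Prog J D} {T : Tb J D} {w w' : List (Lt J D)} (H : P.St T w w')
    {c : Lt J D} (hc : c ∈ w) (hf : P.tab T c = {[c]}) : c ∈ w' := by
  obtain ⟨u, hu, hb⟩ := Par.mem_left H hc
  have hu' : u ∈ P.tab T c := hu
  rw [hf, Finset.mem_singleton] at hu'
  subst hu'
  exact hb _ (by simp)

theorem Prog.dead_step (P : Prog J D) {T : Tb J D} {w w' : List (Lt J D)} (H : P.St T w w')
    (hw : Dead w) : Dead w' := by
  rcases hw with h | ⟨j, h1, h2⟩ | ⟨a, h1, h2⟩
  · exact Or.inl (H.dies h (by cases T <;> simp [Prog.tab]))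
  · have : (∀ u ∈ P.tab T (.p j), .f ∈ u) ∨ (∀ u ∈ P.tab T (.e j), .f ∈ u) ∨
        (P.tab T (.p j) = {[.p j]} ∧ P.tab T (.e j) = {[.e j]}) := by
      cases T with
      | A i => right; right; exact ⟨rfl, rfl⟩
      | B i i' =>
        by_cases h : j = i
        · right; left; simp [Prog.tab, h]
        · right; right; simp [Prog.tab, h]
      | R i =>
        by_cases h : j = i
        · left; simp [Prog.tab, h]
        · right; right; simp [Prog.tab, h]
      | V i => right; right; exact ⟨rfl, rfl⟩
      | Z =>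
        by_cases h : j = P.halt
        · right; left; simp [Prog.tab, h]
        · right; right; simp [Prog.tab, h]
    rcases this with h | h | ⟨h, h'⟩
    · exact Or.inl (H.dies h1 h)
    · exact Or.inl (H.dies h2 h)
    · exact Or.inr (Or.inl ⟨j, H.stays h1 h, H.stays h2 h'⟩)
  · have : (∀ u ∈ P.tab T (.d a), .f ∈ u) ∨ (∀ u ∈ P.tab T (.v a), .f ∈ u) ∨
        (P.tab T (.d a) = {[.d a]} ∧ P.tab T (.v a) = {[.v a]}) := by
      cases T with
      | A i =>
        by_cases h : a = P.dl i
        · right; left; simp [Prog.tab, h]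
        · right; right; simp [Prog.tab, h]
      | B i i' => right; right; exact ⟨rfl, rfl⟩
      | R i => right; right; exact ⟨rfl, rfl⟩
      | V i =>
        by_cases h : a = i
        · left; simp [Prog.tab, h]
        · right; right; simp [Prog.tab, h]
      | Z => right; right; exact ⟨rfl, rfl⟩
    rcases this with h | h | ⟨h, h'⟩
    · exact Or.inl (H.dies h1 h)
    · exact Or.inl (H.dies h2 h)
    · exact Or.inr (Or.inr ⟨a, H.stays h1 h, H.stays h2 h'⟩)

theorem Prog.reach_mem (P : Prog J D) {j : J} {z : List D} (H : P.Reach j z) : j ∈ P.Js := by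
  cases H with
  | init => exact P.start_mem
  | step _ he _ => exact (P.edges_mem _ he).2

theorem Prog.S_fix (P : Prog J D) {j : J} {z z' : List D} (hz : P.dl j ∉ z)
    (H : Par (P.S j) z z') : z' = z := by
  refine (par_id fun c hc => ?_).1 H
  have : c ≠ P.dl j := fun h => hz (h ▸ hc)
  simp [Prog.S, this]

theorem Prog.S_refl (P : Prog J D) {j : J} {z : List D} (hz : P.dl j ∉ z) :
    Par (P.S j) z z := by
  refine (par_id fun c hc => ?_).2 rfl
  have : c ≠ P.dl j := fun h => hz (h ▸ hc)
  simp [Prog.S, this]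

theorem Prog.S_not (P : Prog J D) {j : J} (hj : j ∈ P.Js) {z z' : List D}
    (H : Par (P.S j) z z') : P.dl j ∉ z' := by
  intro h
  obtain ⟨c, hc, u, hu, hb⟩ := H.mem h
  by_cases h1 : c = P.dl j
  · simp only [Prog.S, h1, if_true] at hu
    exact P.sub_not j hj u hu hb
  · simp only [Prog.S, h1, if_false, Set.mem_singleton_iff] at hu
    subst hu
    rw [List.mem_singleton] at hb
    exact h1 hb.symm

/-- the data part under the table `A j` -/
theorem Prog.A_data (P : Prog J D) {j : J} {w w' : List (Lt J D)} (H : P.St (.A j) w w') :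
    Par (P.S j) (w.flatMap pd) (w'.flatMap pd) := by
  refine par_proj H ?_
  intro c _ u hu
  have hu' : u ∈ P.tab (.A j) c := hu
  cases c with
  | d a =>
    simp only [Prog.tab] at hu'
    rw [show pd (Lt.d a : Lt J D) = [a] from rfl, par_single]
    by_cases h : a = P.dl j
    · simp only [h, if_true, Finset.mem_image] at hu'
      obtain ⟨v, hv, rfl⟩ := hu'
      have : (List.map Lt.d v ++ List.map Lt.e (P.Js.erase j).toList : List (Lt J D)).flatMap pd
          = v := by
        rw [List.flatMap_append]
        have e1 : ∀ v : List D, (List.map Lt.d v : List (Lt J D)).flatMap pd = v := by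
          intro v
          induction v with
          | nil => rfl
          | cons a v ih => simp only [List.map_cons, List.flatMap_cons, ih, pd]; rfl
        have e2 : ∀ v : List J, (List.map Lt.e v : List (Lt J D)).flatMap pd = [] := by
          intro v
          induction v with
          | nil => rfl
          | cons a v ih => simp only [List.map_cons, List.flatMap_cons, ih, pd]; rfl
        rw [e1, e2, List.append_nil]
      rw [this]
      simp only [Prog.S, h, if_true]
      exact hv
    · simp only [h, if_false, Finset.mem_singleton] at hu'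
      subst hu'
      simp [Prog.S, h, pd]
  | p i =>
    simp only [Prog.tab, Finset.mem_singleton] at hu'
    subst hu'
    simpa [pd] using Par.nil
  | e i =>
    simp only [Prog.tab, Finset.mem_singleton] at hu'
    subst hu'
    simpa [pd] using Par.nil
  | v a =>
    simp only [Prog.tab] at hu'
    split_ifs at hu' <;> rw [Finset.mem_singleton] at hu' <;> subst hu' <;>
      simpa [pd] using Par.nil
  | f =>
    simp only [Prog.tab, Finset.mem_singleton] at hu'
    subst hu'
    simpa [pd] using Par.nil

/-- the data part under the other tables -/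
theorem Prog.other_data (P : Prog J D) {T : Tb J D} (hT : ∀ j, T ≠ .A j) {w w' : List (Lt J D)}
    (H : P.St T w w') (hw : Lt.f ∉ w') : w'.flatMap pd = w.flatMap pd := by
  refine par_flatMap H ?_
  intro c hc u hu
  have hu' : u ∈ P.tab T c := hu
  have hd := fun h => hw (H.dies hc h)
  cases T with
  | A j => exact absurd rfl (hT j)
  | B j j' =>
    cases c <;> simp only [Prog.tab] at hu' <;> try split_ifs at hu'
    all_goals (rw [Finset.mem_singleton] at hu'; subst hu'; simp [pd])
  | R j =>
    cases c <;> simp only [Prog.tab] at hu' <;> try split_ifs at hu'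
    all_goals (rw [Finset.mem_singleton] at hu'; subst hu'; simp [pd])
  | V a =>
    cases c <;> simp only [Prog.tab] at hu' hd <;> try split_ifs at hu' hd
    all_goals first
      | (rw [Finset.mem_singleton] at hu'; subst hu'; simp [pd]; done)
      | (simp at hd; done)
  | Z =>
    cases c <;> simp only [Prog.tab] at hu' <;> try split_ifs at hu'
    all_goals (rw [Finset.mem_singleton] at hu'; subst hu'; simp [pd])

/-- the control part under the tables `A, R, V` -/
theorem Prog.other_ctrl (P : Prog J D) {T : Tb J D} (hT : ∀ j j', T ≠ .B j j') (hZ : T ≠ .Z)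
    {w w' : List (Lt J D)}
    (H : P.St T w w') (hw : Lt.f ∉ w') : w'.flatMap pp = w.flatMap pp := by
  refine par_flatMap H ?_
  intro c hc u hu
  have hu' : u ∈ P.tab T c := hu
  have hd := fun h => hw (H.dies hc h)
  cases T with
  | A j =>
    cases c <;> simp only [Prog.tab] at hu' <;> try split_ifs at hu'
    all_goals try (rw [Finset.mem_singleton] at hu'; subst hu'; simp [pp]; done)
    rw [Finset.mem_image] at hu'
    obtain ⟨v, hv, rfl⟩ := hu'
    rw [List.flatMap_append]
    have e1 : ∀ v : List D, (List.map Lt.d v : List (Lt J D)).flatMap pp = [] := by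
      intro v
      induction v with
      | nil => rfl
      | cons a v ih => simp only [List.map_cons, List.flatMap_cons, ih, pp]; rfl
    have e2 : ∀ v : List J, (List.map Lt.e v : List (Lt J D)).flatMap pp = [] := by
      intro v
      induction v with
      | nil => rfl
      | cons a v ih => simp only [List.map_cons, List.flatMap_cons, ih, pp]; rfl
    rw [e1, e2]; rfl
  | B j j' => exact absurd rfl (hT j j')
  | R j =>
    cases c <;> simp only [Prog.tab] at hu' hd <;> try split_ifs at hu' hd
    all_goals first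
      | (rw [Finset.mem_singleton] at hu'; subst hu'; simp [pp]; done)
      | (simp at hd; done)
  | V a =>
    cases c <;> simp only [Prog.tab] at hu' <;> try split_ifs at hu'
    all_goals (rw [Finset.mem_singleton] at hu'; subst hu'; simp [pp])
  | Z => exact absurd rfl hZ

theorem flatMap_single {A B : Type} (g : A → B) (F : Lt J D → List A) (w : List (Lt J D)) :
    w.flatMap (fun c => (F c).map g) = (w.flatMap F).map g := by
  induction w with
  | nil => rfl
  | cons c w ih => rw [List.flatMap_cons, List.flatMap_cons, List.map_append, ih]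

theorem Prog.B_ctrl (P : Prog J D) {j j' : J} {w w' : List (Lt J D)}
    (H : P.St (.B j j') w w') :
    w'.flatMap pp = (w.flatMap pp).map (fun i => if i = j then j' else i) := by
  rw [← flatMap_single]
  refine par_flatMap H ?_
  intro c hc u hu
  have hu' : u ∈ P.tab (.B j j') c := hu
  cases c <;> simp only [Prog.tab] at hu' <;> try split_ifs at hu'
  all_goals (rw [Finset.mem_singleton] at hu'; subst hu'; simp [pp, *])

theorem Prog.Z_ctrl (P : Prog J D) {w w' : List (Lt J D)} (H : P.St .Z w w') :
    w'.flatMap pp = (w.flatMap pp).filter (fun i => i ≠ P.halt) := by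
  have : w'.flatMap pp = w.flatMap (fun c => (pp c).filter (fun i => i ≠ P.halt)) := by
    refine par_flatMap H ?_
    intro c hc u hu
    have hu' : u ∈ P.tab .Z c := hu
    cases c <;> simp only [Prog.tab] at hu' <;> try split_ifs at hu'
    all_goals (rw [Finset.mem_singleton] at hu'; subst hu'; simp [pp, *])
  rw [this]
  clear this H
  induction w with
  | nil => rfl
  | cons c w ih => rw [List.flatMap_cons, List.flatMap_cons, List.filter_append, ih]

/-- the invariant -/
def Prog.Good (P : Prog J D) (w : List (Lt J D)) : Prop :=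
  Dead w ∨ (∃ j z, w.flatMap pp = [j] ∧ P.Reach j z ∧
    (w.flatMap pd = z ∨ Par (P.S j) z (w.flatMap pd))) ∨
  (w.flatMap pp = [] ∧ P.Reach P.halt (w.flatMap pd))

theorem Prog.good_step (P : Prog J D)
    (hH : ∀ z, P.Reach P.halt z → ∀ j ∈ P.Js, P.dl j ∉ z)
    {T : Tb J D} (hT : T ∈ P.tbs) {w w' : List (Lt J D)}
    (H : P.St T w w') (hw : P.Good w) : P.Good w' := by
  have hA : ∀ j, Tb.A j ∈ P.tbs → j ∈ P.Js := by
    intro j hj; simpa [Prog.tbs] using hj
  have hB : ∀ j j', Tb.B j j' ∈ P.tbs → (j, j') ∈ P.edges := by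
    intro j j' hj; simpa [Prog.tbs] using hj
  by_cases hdead : Dead w'
  · exact Or.inl hdead
  have hf : Lt.f ∉ w' := fun h => hdead (Or.inl h)
  rcases hw with hw | ⟨i, z, h1, h2, h3⟩ | ⟨h1, h2⟩
  · exact absurd (P.dead_step H hw) hdead
  · right
    cases T with
    | A j =>
      left
      have h4 := P.other_ctrl (by simp) (by simp) H hf
      have h5 := P.A_data H
      refine ⟨i, z, h4.trans h1, h2, ?_⟩
      by_cases hij : i = j
      · subst hij
        rcases h3 with h3 | h3
        · right; rw [← h3]; exact h5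
        · right
          rw [P.S_fix (P.S_not (P.reach_mem h2) h3) h5]
          exact h3
      · have h6 : P.dl j ∉ w.flatMap pd := by
          intro h6
          rw [mem_pd] at h6
          refine hdead (Or.inr (Or.inl ⟨i, ?_, ?_⟩))
          · rw [← mem_pp, h4, h1]; simp
          · obtain ⟨u, hu, hb⟩ := Par.mem_left H h6
            have hu' : u ∈ P.tab (.A j) (.d (P.dl j)) := hu
            simp only [Prog.tab, if_true, Finset.mem_image] at hu'
            obtain ⟨v, hv, rfl⟩ := hu'
            refine hb _ (List.mem_append_right _ (List.mem_map_of_mem ?_))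
            rw [Finset.mem_toList, Finset.mem_erase]
            exact ⟨hij, P.reach_mem h2⟩
        rw [P.S_fix h6 h5]
        exact h3
    | B j j' =>
      left
      have h4 := P.B_ctrl H
      have h5 := P.other_data (by simp) H hf
      rw [h1] at h4
      by_cases hij : i = j
      · subst hij
        refine ⟨j', w'.flatMap pd, by simpa using h4, ?_, Or.inl rfl⟩
        have h6 : P.dl i ∉ w'.flatMap pd := by
          intro h6
          rw [mem_pd] at h6
          refine hdead (Or.inr (Or.inr ⟨P.dl i, h6, ?_⟩))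
          have hi : Lt.p i ∈ w := by rw [← mem_pp, h1]; simp
          obtain ⟨u, hu, hb⟩ := Par.mem_left H hi
          have hu' : u ∈ P.tab (.B i j') (.p i) := hu
          simp only [Prog.tab, if_true, Finset.mem_singleton] at hu'
          subst hu'
          exact hb _ (by simp)
        rw [h5] at h6 ⊢
        rcases h3 with h3 | h3
        · rw [h3] at h6 ⊢
          exact Prog.Reach.step h2 (hB _ _ hT) (P.S_refl h6)
        · exact Prog.Reach.step h2 (hB _ _ hT) h3
      · refine ⟨i, z, by simpa [hij] using h4, h2, ?_⟩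
        rw [h5]; exact h3
    | R j =>
      left
      refine ⟨i, z, (P.other_ctrl (by simp) (by simp) H hf).trans h1, h2, ?_⟩
      rw [P.other_data (by simp) H hf]; exact h3
    | V a =>
      left
      refine ⟨i, z, (P.other_ctrl (by simp) (by simp) H hf).trans h1, h2, ?_⟩
      rw [P.other_data (by simp) H hf]; exact h3
    | Z =>
      have h4 := P.Z_ctrl H
      have h5 := P.other_data (by simp) H hf
      rw [h1] at h4
      by_cases hi : i = P.halt
      · right
        subst hi
        refine ⟨by simpa using h4, ?_⟩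
        rw [h5]
        rcases h3 with h3 | h3
        · rw [h3]; exact h2
        · rw [P.S_fix (hH z h2 _ P.halt_mem) h3]; exact h2
      · left
        refine ⟨i, z, by simpa [hi] using h4, h2, ?_⟩
        rw [h5]; exact h3
  · right; right
    cases T with
    | A j =>
      refine ⟨(P.other_ctrl (by simp) (by simp) H hf).trans h1, ?_⟩
      rw [P.S_fix (hH _ h2 j (hA j hT)) (P.A_data H)]
      exact h2
    | B j j' =>
      refine ⟨by rw [P.B_ctrl H, h1]; rfl, ?_⟩
      rw [P.other_data (by simp) H hf]; exact h2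
    | R j =>
      refine ⟨(P.other_ctrl (by simp) (by simp) H hf).trans h1, ?_⟩
      rw [P.other_data (by simp) H hf]; exact h2
    | V a =>
      refine ⟨(P.other_ctrl (by simp) (by simp) H hf).trans h1, ?_⟩
      rw [P.other_data (by simp) H hf]; exact h2
    | Z =>
      refine ⟨by rw [P.Z_ctrl H, h1]; rfl, ?_⟩
      rw [P.other_data (by simp) H hf]; exact h2

omit [DecidableEq J] [DecidableEq D] in
theorem pd_map (z : List D) : (z.map Lt.d : List (Lt J D)).flatMap pd = z := by
  induction z with
  | nil => rfl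
  | cons a v ih => simp only [List.map_cons, List.flatMap_cons, ih, pd]; rfl

omit [DecidableEq J] [DecidableEq D] in
theorem pp_map (z : List D) : (z.map Lt.d : List (Lt J D)).flatMap pp = [] := by
  induction z with
  | nil => rfl
  | cons a v ih => simp only [List.map_cons, List.flatMap_cons, ih, pp]; rfl

theorem Prog.good_all (P : Prog J D)
    (hH : ∀ z, P.Reach P.halt z → ∀ j ∈ P.Js, P.dl j ∉ z) {w : List (Lt J D)}
    (H : Relation.ReflTransGen P.sys.Step P.sys.ax w) : P.Good w := by
  induction H with
  | refl =>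
    refine Or.inr (Or.inl ⟨P.start, P.z0, ?_, Prog.Reach.init, Or.inl ?_⟩)
    · change (Lt.p P.start :: P.z0.map Lt.d).flatMap pp = _
      rw [List.flatMap_cons, pp_map]; rfl
    · change (Lt.p P.start :: P.z0.map Lt.d).flatMap pd = _
      rw [List.flatMap_cons, pd_map]; rfl
  | tail _ h ih =>
    obtain ⟨h, hh, H⟩ := h
    change h ∈ P.tbs.map P.tab at hh
    rw [List.mem_map] at hh
    obtain ⟨T, hT, rfl⟩ := hh
    exact P.good_step hH hT H ih

theorem Prog.sound (P : Prog J D)
    (hH : ∀ z, P.Reach P.halt z → ∀ j ∈ P.Js, P.dl j ∉ z) {w : List (Lt J D)}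
    (hw : w ∈ P.sys.lang) : ∃ z, P.Reach P.halt z ∧ (∀ a ∈ z, a ∈ P.out) ∧ w = z.map .d := by
  obtain ⟨h1, h2⟩ := hw
  have h1' : ∀ c ∈ w, ∃ a ∈ P.out, Lt.d a = c := by
    intro c hc
    have := h1 c hc
    change c ∈ P.out.image Lt.d at this
    rwa [Finset.mem_image] at this
  obtain ⟨z, rfl⟩ : ∃ z : List D, w = z.map .d := by
    clear h1 h2
    induction w with
    | nil => exact ⟨[], rfl⟩
    | cons c w ih =>
      obtain ⟨z, rfl⟩ := ih fun c hc => h1' c (by simp [hc])
      obtain ⟨a, _, rfl⟩ := h1' c (by simp)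
      exact ⟨a :: z, rfl⟩
  refine ⟨z, ?_, ?_, rfl⟩
  · rcases P.good_all hH h2 with h | ⟨j, z', h3, _⟩ | ⟨_, h3⟩
    · exfalso
      rcases h with h | ⟨j, h, _⟩ | ⟨a, _, h⟩
      · obtain ⟨a, _, h⟩ := h1' _ h; cases h
      · obtain ⟨a, _, h⟩ := h1' _ h; cases h
      · obtain ⟨a, _, h⟩ := h1' _ h; cases h
    · rw [pp_map] at h3; cases h3
    · rwa [pd_map] at h3
  · intro a ha
    obtain ⟨b, hb, h⟩ := h1' _ (List.mem_map_of_mem ha)
    cases h
    exact hb

theorem Prog.st_step (P : Prog J D) {T : Tb J D} (hT : T ∈ P.tbs) {x y : List (Lt J D)}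
    (H : P.St T x y) : P.sys.Step x y :=
  ⟨P.tab T, List.mem_map_of_mem hT, H⟩

/-- the table `A j` simulates `S j`, up to evidence letters -/
theorem Prog.A_complete (P : Prog J D) {j : J} {z z' : List D} (H : Par (P.S j) z z') :
    ∃ y, P.St (.A j) (z.map .d) y ∧
      (∀ c ∈ y, ∀ i, c ≠ .p i) ∧
      y.filter (fun c => decide (∀ i ∈ (P.Js.erase j).toList, c ≠ .e i)) = z'.map .d := by
  induction H with
  | nil => exact ⟨[], Par.nil, by simp, rfl⟩
  | cons hu _ ih =>
    rename_i c x u y _
    obtain ⟨y', h1, h2, h3⟩ := ih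
    by_cases hc : c = P.dl j
    · simp only [Prog.S, hc, if_true] at hu
      refine ⟨(u.map .d ++ (P.Js.erase j).toList.map .e) ++ y', ?_, ?_, ?_⟩
      · refine Par.cons ?_ h1
        show _ ∈ P.tab (.A j) (.d c)
        simp only [Prog.tab, hc, if_true, Finset.mem_image]
        exact ⟨u, hu, rfl⟩
      · intro c hc i
        rw [List.mem_append, List.mem_append, List.mem_map, List.mem_map] at hc
        rcases hc with (⟨a, _, rfl⟩ | ⟨a, _, rfl⟩) | hc
        · simp
        · simp
        · exact h2 c hc i
      · rw [List.filter_append, List.filter_append, h3, List.map_append]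
        have e1 : (u.map Lt.d : List (Lt J D)).filter
            (fun c => decide (∀ i ∈ (P.Js.erase j).toList, c ≠ .e i)) = u.map .d := by
          rw [List.filter_eq_self]
          intro c hc
          rw [List.mem_map] at hc
          obtain ⟨a, _, rfl⟩ := hc
          simp
        have e2 : ((P.Js.erase j).toList.map Lt.e : List (Lt J D)).filter
            (fun c => decide (∀ i ∈ (P.Js.erase j).toList, c ≠ .e i)) = [] := by
          rw [List.filter_eq_nil_iff]
          intro c hc
          rw [List.mem_map] at hc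
          obtain ⟨a, ha, rfl⟩ := hc
          simp only [decide_eq_true_eq, not_forall]
          exact ⟨a, ha, by simp⟩
        rw [e1, e2, List.append_nil]
    · simp only [Prog.S, hc, if_false, Set.mem_singleton_iff] at hu
      subst hu
      refine ⟨[.d c] ++ y', ?_, ?_, ?_⟩
      · refine Par.cons ?_ h1
        show _ ∈ P.tab (.A j) (.d c)
        simp [Prog.tab, hc]
      · intro c' hc' i
        rw [List.mem_append, List.mem_singleton] at hc'
        rcases hc' with rfl | hc'
        · simp
        · exact h2 c' hc' i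
      · rw [List.filter_append, h3, List.map_append]
        have e1 : ([.d c] : List (Lt J D)).filter
            (fun c => decide (∀ i ∈ (P.Js.erase j).toList, c ≠ .e i)) = [.d c] := by
          rw [List.filter_eq_self]
          intro c hc
          rw [List.mem_singleton] at hc
          subst hc
          simp
        rw [e1]
        rfl

/-- erasing evidence letters -/
theorem Prog.R_complete (P : Prog J D) {i : J} (w : List (Lt J D)) (hw : Lt.p i ∉ w) :
    P.St (.R i) w (w.filter (fun c => decide (c ≠ .e i))) := by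
  induction w with
  | nil => exact Par.nil
  | cons c w ih =>
    have h1 := ih fun h => hw (by simp [h])
    by_cases hc : c = .e i
    · subst hc
      rw [List.filter_cons_of_neg (by simp)]
      refine Par.cons (u := []) ?_ h1
      show _ ∈ P.tab (.R i) (.e i)
      simp [Prog.tab]
    · rw [List.filter_cons_of_pos (by simpa using hc)]
      refine Par.cons (u := [c]) ?_ h1
      show _ ∈ P.tab (.R i) c
      have hc' : c ≠ .p i := fun h => hw (by simp [h])
      cases c with
      | d a => simp [Prog.tab]
      | p k =>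
        have : k ≠ i := fun h => hc' (by rw [h])
        simp [Prog.tab, this]
      | e k =>
        have : k ≠ i := fun h => hc (by rw [h])
        simp [Prog.tab, this]
      | v a => simp [Prog.tab]
      | f => simp [Prog.tab]

theorem Prog.erase_complete (P : Prog J D) (l : List J) (hl : ∀ i ∈ l, i ∈ P.Js) :
    ∀ w : List (Lt J D), (∀ i ∈ l, Lt.p i ∉ w) → Relation.ReflTransGen P.sys.Step w
      (w.filter (fun c => decide (∀ i ∈ l, c ≠ .e i))) := by
  induction l with
  | nil =>
    intro w _
    have : w.filter (fun c => decide (∀ i ∈ ([] : List J), c ≠ .e i)) = w := by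
      rw [List.filter_eq_self]; intro c _; simp
    rw [this]
  | cons i l ih =>
    intro w hw
    have h1 : P.sys.Step w (w.filter (fun c => decide (c ≠ .e i))) :=
      P.st_step (T := .R i) (by simp [Prog.tbs, hl i (by simp)]) (P.R_complete w (hw i (by simp)))
    have h2 := ih (fun k hk => hl k (by simp [hk])) (w.filter (fun c => decide (c ≠ .e i)))
      (fun k hk h => hw k (by simp [hk]) (List.mem_of_mem_filter h))
    have h3 : (w.filter (fun c => decide (c ≠ .e i))).filter
        (fun c => decide (∀ i ∈ l, c ≠ .e i)) =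
        w.filter (fun c => decide (∀ k ∈ i :: l, c ≠ .e k)) := by
      rw [List.filter_filter]
      congr 1
      funext c
      simp only [List.mem_cons, forall_eq_or_imp, Bool.decide_and]
      exact Bool.and_comm _ _
    rw [h3] at h2
    exact Relation.ReflTransGen.head h1 h2

theorem Prog.St.fix (P : Prog J D) {T : Tb J D} {w : List (Lt J D)}
    (h : ∀ c ∈ w, P.tab T c = {[c]}) : P.St T w w := by
  refine (par_id fun c hc => ?_).2 rfl
  show ((P.tab T c : Finset _) : Set (List (Lt J D))) = _
  rw [h c hc]; simp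

theorem Prog.complete (P : Prog J D) {j : J} {z : List D} (H : P.Reach j z) :
    Relation.ReflTransGen P.sys.Step P.sys.ax (.p j :: z.map .d) := by
  induction H with
  | init => exact Relation.ReflTransGen.refl
  | step h1 h2 h3 ih =>
    rename_i j j' z z'
    have hj := P.reach_mem h1
    refine ih.trans ?_
    -- the table `A j`
    obtain ⟨y, h4, h5, h6⟩ := P.A_complete h3
    have s1 : P.sys.Step (.p j :: z.map .d) (.p j :: y) := by
      refine P.st_step (T := .A j) (by simp [Prog.tbs, hj]) ?_
      refine Par.cons (u := [.p j]) ?_ h4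
      show _ ∈ P.tab (.A j) (.p j)
      simp [Prog.tab]
    -- the tables `R i`
    have s2 := P.erase_complete (P.Js.erase j).toList
      (fun i hi => Finset.mem_of_mem_erase (Finset.mem_toList.1 hi)) (.p j :: y) (by
        intro i hi h
        rw [Finset.mem_toList, Finset.mem_erase] at hi
        rcases List.mem_cons.1 h with h | h
        · cases h; exact hi.1 rfl
        · exact h5 _ h i rfl)
    rw [List.filter_cons_of_pos (by simp), h6] at s2
    -- the table `B j j'`
    have s3 : P.sys.Step (.p j :: z'.map .d) (.p j' :: .v (P.dl j) :: z'.map .d) := by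
      refine P.st_step (T := .B j j') (by simp [Prog.tbs, h2]) ?_
      refine Par.cons (u := [.p j', .v (P.dl j)]) ?_ (Prog.St.fix P ?_)
      · show _ ∈ P.tab (.B j j') (.p j)
        simp [Prog.tab]
      · intro c hc
        rw [List.mem_map] at hc
        obtain ⟨a, _, rfl⟩ := hc
        rfl
    -- the table `V`
    have s4 : P.sys.Step (.p j' :: .v (P.dl j) :: z'.map .d) (.p j' :: z'.map .d) := by
      refine P.st_step (T := .V (P.dl j)) (by simp [Prog.tbs, P.dl_mem j hj]) ?_
      refine Par.cons (u := [.p j']) ?_ (Par.cons (u := []) ?_ (Prog.St.fix P ?_))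
      · show _ ∈ P.tab (.V (P.dl j)) (.p j')
        simp [Prog.tab]
      · show _ ∈ P.tab (.V (P.dl j)) (.v (P.dl j))
        simp [Prog.tab]
      · intro c hc
        rw [List.mem_map] at hc
        obtain ⟨a, ha, rfl⟩ := hc
        have : a ≠ P.dl j := fun h => P.S_not hj h3 (h ▸ ha)
        simp [Prog.tab, this]
    exact ((Relation.ReflTransGen.head s1 s2).tail s3).tail s4

theorem Prog.lang_eq (P : Prog J D)
    (hH : ∀ z, P.Reach P.halt z → ∀ j ∈ P.Js, P.dl j ∉ z) :
    P.sys.lang = {w | ∃ z, P.Reach P.halt z ∧ (∀ a ∈ z, a ∈ P.out) ∧ w = z.map .d} := by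
  ext w
  constructor
  · exact fun h => P.sound hH h
  · rintro ⟨z, h1, h2, rfl⟩
    refine ⟨?_, (P.complete h1).tail (P.st_step (T := .Z) (by simp [Prog.tbs]) ?_)⟩
    · intro c hc
      rw [List.mem_map] at hc
      obtain ⟨a, ha, rfl⟩ := hc
      exact Finset.mem_image_of_mem _ (h2 a ha)
    · refine Par.cons (u := []) ?_ (Prog.St.fix P ?_)
      · show _ ∈ P.tab .Z (.p P.halt)
        simp [Prog.tab]
      · intro c hc
        rw [List.mem_map] at hc
        obtain ⟨a, ha, rfl⟩ := hc
        rfl

end Protocol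

/-! ### Renaming letters -/

section Rename

variable {α : Type} [DecidableEq α]

theorem rename (G : ET0L α) (φ : α → ℕ) (hφ : Function.Injective φ) (k : ℕ)
    (hk : G.Restricted k) : ∃ G' : ET0L ℕ, G'.Restricted k ∧ G'.lang = (List.map φ) '' G.lang := by
  classical
  obtain ⟨c0, _⟩ := List.exists_mem_of_ne_nil _ G.ax_ne
  have : Nonempty α := ⟨c0⟩
  set ψ := Function.invFun φ with hψ
  have hψφ : ∀ a, ψ (φ a) = a := fun a => Function.leftInverse_invFun hφ a
  have himg : ∀ c ∈ G.alph.image φ, ∃ a ∈ G.alph, φ a = c := fun c hc => by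
    simpa using hc
  refine ⟨{ alph := G.alph.image φ
            tables := G.tables.map (fun h n => (h (ψ n)).image (List.map φ))
            ax := G.ax.map φ
            term := G.term.image φ
            tables_ne := by simpa using G.tables_ne
            ax_ne := by simpa using G.ax_ne
            ax_alph := ?_
            term_alph := Finset.image_subset_image G.term_alph
            img_ne := ?_
            img_alph := ?_ }, ?_, ?_⟩
  · intro c hc
    rw [List.mem_map] at hc
    obtain ⟨a, ha, rfl⟩ := hc
    exact Finset.mem_image_of_mem _ (G.ax_alph a ha)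
  · intro h hh c hc
    rw [List.mem_map] at hh
    obtain ⟨h, hh, rfl⟩ := hh
    obtain ⟨a, ha, rfl⟩ := himg c hc
    simp only [hψφ]
    exact (G.img_ne h hh a ha).image _
  · intro h hh c hc u hu d hd
    rw [List.mem_map] at hh
    obtain ⟨h, hh, rfl⟩ := hh
    obtain ⟨a, ha, rfl⟩ := himg c hc
    simp only [hψφ, Finset.mem_image] at hu
    obtain ⟨v, hv, rfl⟩ := hu
    rw [List.mem_map] at hd
    obtain ⟨b, hb, rfl⟩ := hd
    exact Finset.mem_image_of_mem _ (G.img_alph h hh a ha v hv b hb)
  · intro h hh
    change h ∈ G.tables.map _ at hh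
    rw [List.mem_map] at hh
    obtain ⟨h, hh, rfl⟩ := hh
    refine le_trans ?_ (hk h hh)
    refine le_trans (Finset.card_le_card (t := (G.alph.filter (fun c => h c ≠ {[c]})).image φ) ?_)
      Finset.card_image_le
    intro c hc
    rw [Finset.mem_filter] at hc
    obtain ⟨a, ha, rfl⟩ := himg c hc.1
    refine Finset.mem_image_of_mem _ (Finset.mem_filter.2 ⟨ha, fun h1 => hc.2 ?_⟩)
    show (h (ψ (φ a))).image (List.map φ) = _
    rw [hψφ, h1, Finset.image_singleton]
    rfl
  · have hpar : ∀ (h : α → Finset (List α)) (x : List α) (y' : List ℕ),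
        Par (fun n => (((h (ψ n)).image (List.map φ) : Finset (List ℕ)) : Set (List ℕ)))
          (x.map φ) y' ↔ ∃ y, Par (fun c => (h c : Set (List α))) x y ∧ y' = y.map φ := by
      intro h x y'
      rw [par_map]
      simp only [hψφ, Finset.coe_image]
      exact par_image
    ext w
    constructor
    · rintro ⟨h1, h2⟩
      change ∀ c ∈ w, c ∈ G.term.image φ at h1
      have h3 : ∃ y, Relation.ReflTransGen G.Step G.ax y ∧ w = y.map φ := by
        clear h1
        induction h2 with
        | refl => exact ⟨G.ax, Relation.ReflTransGen.refl, rfl⟩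
        | tail _ h ih =>
          obtain ⟨y, h4, rfl⟩ := ih
          obtain ⟨h, hh, H⟩ := h
          change h ∈ G.tables.map _ at hh
          rw [List.mem_map] at hh
          obtain ⟨h, hh, rfl⟩ := hh
          obtain ⟨y', h5, h6⟩ := (hpar h y _).1 H
          exact ⟨y', h4.tail ⟨h, hh, h5⟩, h6⟩
      obtain ⟨y, h4, rfl⟩ := h3
      refine ⟨y, ⟨?_, h4⟩, rfl⟩
      intro c hc
      have := h1 (φ c) (List.mem_map_of_mem hc)
      rw [Finset.mem_image] at this
      obtain ⟨b, hb, h5⟩ := this
      rwa [← hφ h5]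
    · rintro ⟨y, ⟨h1, h2⟩, rfl⟩
      refine ⟨?_, ?_⟩
      · intro c hc
        rw [List.mem_map] at hc
        obtain ⟨a, ha, rfl⟩ := hc
        exact Finset.mem_image_of_mem _ (h1 a ha)
      · clear h1
        induction h2 with
        | refl => exact Relation.ReflTransGen.refl
        | tail _ h ih =>
          obtain ⟨h, hh, H⟩ := h
          exact ih.tail ⟨_, List.mem_map_of_mem hh, (hpar h _ _).2 ⟨_, H, rfl⟩⟩

end Rename

/-! ### The program of an ET0L system -/

section Program

/-- data letters of the simulating program: terminal copies `t c`, working copies `u c`, `q c`, a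
non-terminal garbage letter `x` and a letter `y` which never occurs -/
inductive DL
  | t (c : ℕ) : DL
  | u (c : ℕ) : DL
  | q (c : ℕ) : DL
  | x : DL
  | y : DL
  deriving DecidableEq

/-- the substitution of an instruction -/
def sb (i : DL × Finset (List DL)) : DL → Set (List DL) :=
  fun c => if c = i.1 then (i.2 : Set (List DL)) else {[c]}

theorem sb_fix {P : List (DL × Finset (List DL))} {x z : List DL}
    (hx : ∀ c ∈ x, c ∉ P.map Prod.fst) : Run (P.map sb) x z ↔ z = x := by
  refine run_fix ?_
  intro h hh c hc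
  rw [List.mem_map] at hh
  obtain ⟨i, hi, rfl⟩ := hh
  have : c ≠ i.1 := fun h => hx c hc (h ▸ List.mem_map_of_mem hi)
  simp [sb, this]

theorem run_single {P : List (DL × Finset (List DL))} (hP : (P.map Prod.fst).Nodup) {a : DL}
    {I : Finset (List DL)} (ha : (a, I) ∈ P) (hI : ∀ v ∈ I, ∀ b ∈ v, b ∉ P.map Prod.fst)
    {z : List DL} : Run (P.map sb) [a] z ↔ z ∈ I := by
  obtain ⟨P1, P2, rfl⟩ := List.append_of_mem ha
  rw [List.map_append, List.map_cons] at hP
  have ha1 : a ∉ P1.map Prod.fst := by
    intro h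
    have := (List.nodup_append.1 hP).2.2 a h a (by simp)
    exact this rfl
  have h1 : ∀ y, Run (P1.map sb) [a] y ↔ y = [a] := fun y => sb_fix (by simpa using ha1)
  have h2 : ∀ y ∈ I, ∀ z, Run (P2.map sb) y z ↔ z = y := by
    intro y hy z
    refine sb_fix ?_
    intro b hb h
    refine hI y hy b hb ?_
    rw [List.map_append, List.map_cons, List.mem_append, List.mem_cons]
    exact Or.inr (Or.inr h)
  rw [List.map_append, run_app, List.map_cons]
  constructor
  · rintro ⟨y, h3, y', h4, h5⟩
    rw [h1] at h3
    subst h3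
    rw [par_single] at h4
    have h6 : y' ∈ I := by simpa [sb] using h4
    rw [h2 y' h6] at h5
    subst h5
    exact h6
  · intro hz
    refine ⟨[a], (h1 _).2 rfl, z, ?_, (h2 z hz z).2 rfl⟩
    rw [par_single]
    simpa [sb] using hz

/-- the first phase of a routine -/
def ph1 (as : List ℕ) (I : ℕ → Finset (List DL)) : List (DL × Finset (List DL)) :=
  as.map (fun a => (DL.u a, I a))

/-- the second phase of a routine -/
def ph2 (as : List ℕ) : List (DL × Finset (List DL)) :=
  as.map (fun a => (DL.q a, {[DL.u a]}))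

def rou (as : List ℕ) (I : ℕ → Finset (List DL)) : List (DL × Finset (List DL)) :=
  ph1 as I ++ ph2 as

/-- `q` letters become `u` letters -/
def rho : DL → DL
  | .q c => .u c
  | l => l

theorem run_ph1 {as : List ℕ} (has : as.Nodup) {I : ℕ → Finset (List DL)}
    (hI : ∀ a ∈ as, ∀ v ∈ I a, ∀ c, DL.u c ∉ v) {w : List ℕ} (hw : ∀ c ∈ w, c ∈ as)
    {z : List DL} : Run ((ph1 as I).map sb) (w.map .u) z ↔
      Par (fun c => (I c : Set (List DL))) w z := by
  have hf : (ph1 as I).map Prod.fst = as.map DL.u := by simp [ph1, Function.comp_def]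
  rw [run_par, par_map]
  refine par_congr fun c hc => ?_
  ext v
  simp only [Set.mem_ofPred_eq, Finset.mem_coe]
  refine run_single ?_ ?_ ?_
  · rw [hf]
    exact has.map fun a b h => by cases h; rfl
  · exact List.mem_map_of_mem (f := fun a => (DL.u a, I a)) (hw c hc)
  · intro v hv b hb h
    rw [hf, List.mem_map] at h
    obtain ⟨a, _, rfl⟩ := h
    exact hI c (hw c hc) v hv a hb

theorem run_ph2 {as : List ℕ} (has : as.Nodup) {y : List DL} (hy : ∀ c, DL.q c ∈ y → c ∈ as)
    {z : List DL} : Run ((ph2 as).map sb) y z ↔ z = y.map rho := by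
  have hf : (ph2 as).map Prod.fst = as.map DL.q := by simp [ph2, Function.comp_def]
  rw [run_par, ← par_det]
  refine par_congr fun l hl => ?_
  ext v
  simp only [Set.mem_ofPred_eq, Set.mem_singleton_iff]
  have hother : (∀ c, l ≠ .q c) → (Run ((ph2 as).map sb) [l] v ↔ v = [l]) := by
    intro h
    refine sb_fix ?_
    intro c hc h1
    rw [List.mem_singleton] at hc
    subst hc
    rw [hf, List.mem_map] at h1
    obtain ⟨a, _, h1⟩ := h1
    exact h a h1.symm
  cases l with
  | q c =>
    rw [run_single (I := {[DL.u c]}) ?_ ?_ ?_, Finset.mem_singleton]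
    · rfl
    · rw [hf]
      exact has.map fun a b h => by cases h; rfl
    · exact List.mem_map_of_mem (f := fun a => (DL.q a, ({[DL.u a]} : Finset (List DL))))
        (hy c hl)
    · intro v hv b hb h
      rw [Finset.mem_singleton] at hv
      subst hv
      rw [List.mem_singleton] at hb
      subst hb
      rw [hf, List.mem_map] at h
      obtain ⟨a, _, h⟩ := h
      cases h
  | t c => exact hother (by simp)
  | u c => exact hother (by simp)
  | x => exact hother (by simp)
  | y => exact hother (by simp)

variable (G : ET0L ℕ)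

/-- final value of a letter -/
def fin (c : ℕ) : DL := if c ∈ G.term then .t c else .x

/-- images in the first phase of routine `r` -/
def img (r : ℕ) (c : ℕ) : Finset (List DL) :=
  match G.tables[r]? with
  | some h => (h c).image (List.map .q)
  | none => {[fin G c]}

noncomputable def rr (r : ℕ) : List (DL × Finset (List DL)) := rou G.alph.toList (img G r)

theorem length_rr (r : ℕ) : (rr G r).length = 2 * G.alph.card := by
  simp [rr, rou, ph1, ph2]; ring

noncomputable def insn (j : ℕ × ℕ) : DL × Finset (List DL) := ((rr G j.1)[j.2]?).getD (.y, {[]})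

theorem img_mem {r c : ℕ} (hc : c ∈ G.alph) {v : List DL} (hv : v ∈ img G r c) {l : DL}
    (hl : l ∈ v) : (∃ a ∈ G.alph, l = .q a) ∨ (∃ a ∈ G.alph, l = .t a) ∨ l = .x := by
  unfold img at hv
  split at hv
  · rename_i h hh
    rw [Finset.mem_image] at hv
    obtain ⟨w, hw, rfl⟩ := hv
    rw [List.mem_map] at hl
    obtain ⟨a, ha, rfl⟩ := hl
    exact Or.inl ⟨a, G.img_alph h (List.mem_of_getElem? hh) c hc w hw a ha, rfl⟩
  · rw [Finset.mem_singleton] at hv
    subst hv
    rw [List.mem_singleton] at hl
    subst hl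
    unfold fin
    split_ifs with h
    · exact Or.inr (Or.inl ⟨c, hc, rfl⟩)
    · exact Or.inr (Or.inr rfl)

theorem img_ne' {r c : ℕ} (hc : c ∈ G.alph) : (img G r c).Nonempty := by
  unfold img
  split
  · rename_i h hh
    exact (G.img_ne h (List.mem_of_getElem? hh) c hc).image _
  · exact Finset.singleton_nonempty _

theorem img_not_u {r : ℕ} : ∀ a ∈ G.alph.toList, ∀ v ∈ img G r a, ∀ c, DL.u c ∉ v := by
  intro a ha v hv c hc
  rcases img_mem G (Finset.mem_toList.1 ha) hv hc with ⟨b, _, h⟩ | ⟨b, _, h⟩ | h <;> cases h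

theorem insn_cases (j : ℕ × ℕ) : (∃ a ∈ G.alph, insn G j = (.u a, img G j.1 a)) ∨
    (∃ a ∈ G.alph, insn G j = (.q a, {[.u a]})) ∨ insn G j = (.y, {[]}) := by
  unfold insn
  cases h : (rr G j.1)[j.2]? with
  | none => right; right; rfl
  | some i =>
    have := List.mem_of_getElem? h
    rw [rr, rou, List.mem_append, ph1, ph2, List.mem_map, List.mem_map] at this
    rcases this with ⟨a, ha, rfl⟩ | ⟨a, ha, rfl⟩
    · left; exact ⟨a, Finset.mem_toList.1 ha, rfl⟩
    · right; left; exact ⟨a, Finset.mem_toList.1 ha, rfl⟩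

theorem card_pos : 0 < G.alph.card := by
  obtain ⟨c, hc⟩ := List.exists_mem_of_ne_nil _ G.ax_ne
  exact Finset.card_pos.2 ⟨c, G.ax_alph c hc⟩

/-- edges of the control graph -/
def Edge (R K : ℕ) (e : (ℕ × ℕ) × (ℕ × ℕ)) : Prop :=
  (e.2.1 = e.1.1 ∧ e.2.2 = e.1.2 + 1) ∨ (e.1.2 = K ∧ e.1.1 < R ∧ e.2.2 = 0)

instance (R K : ℕ) : DecidablePred (Edge R K) := fun e => by unfold Edge; infer_instance

/-- the program -/
noncomputable def prg : Prog (ℕ × ℕ) DL where
  Js := Finset.range (G.tables.length + 1) ×ˢ Finset.range (2 * G.alph.card + 1)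
  Ds := insert .x (insert .y (G.alph.image .t ∪ G.alph.image .u ∪ G.alph.image .q))
  edges := ((Finset.range (G.tables.length + 1) ×ˢ Finset.range (2 * G.alph.card + 1)) ×ˢ
    (Finset.range (G.tables.length + 1) ×ˢ Finset.range (2 * G.alph.card + 1))).filter
      (Edge G.tables.length (2 * G.alph.card))
  start := (0, 2 * G.alph.card)
  halt := (G.tables.length, 2 * G.alph.card)
  dl j := (insn G j).1
  sub j := (insn G j).2
  z0 := G.ax.map .u
  out := G.term.image .t
  start_mem := by simp
  halt_mem := by simp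
  edges_mem := by
    intro e he
    rw [Finset.mem_filter, Finset.mem_product] at he
    exact he.1
  dl_mem := by
    intro j _
    rcases insn_cases G j with ⟨a, ha, h⟩ | ⟨a, ha, h⟩ | h <;> rw [h] <;> simp [*]
  sub_mem := by
    intro j _ w hw a ha
    rcases insn_cases G j with ⟨b, hb, h⟩ | ⟨b, hb, h⟩ | h <;> rw [h] at hw
    · rcases img_mem G hb hw ha with ⟨c, hc, rfl⟩ | ⟨c, hc, rfl⟩ | rfl <;> simp [*]
    · simp only [Finset.mem_singleton] at hw
      subst hw
      rw [List.mem_singleton] at ha
      subst ha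
      simp [hb]
    · simp only [Finset.mem_singleton] at hw
      subst hw
      simp at ha
  sub_ne := by
    intro j _
    rcases insn_cases G j with ⟨b, hb, h⟩ | ⟨b, hb, h⟩ | h <;> rw [h]
    · exact img_ne' G hb
    · exact Finset.singleton_nonempty _
    · exact Finset.singleton_nonempty _
  sub_not := by
    intro j _ w hw ha
    rcases insn_cases G j with ⟨b, hb, h⟩ | ⟨b, hb, h⟩ | h <;> rw [h] at hw ha
    · exact img_not_u G b (Finset.mem_toList.2 hb) w hw b ha
    · simp only [Finset.mem_singleton] at hw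
      subst hw
      simp at ha
    · simp only [Finset.mem_singleton] at hw
      subst hw
      simp at ha
  z0_mem := by
    intro a ha
    rw [List.mem_map] at ha
    obtain ⟨c, hc, rfl⟩ := ha
    simp [G.ax_alph c hc]
  out_mem := by
    intro a ha
    rw [Finset.mem_image] at ha
    obtain ⟨c, hc, rfl⟩ := ha
    simp [G.term_alph hc]

theorem prg_S (j : ℕ × ℕ) : (prg G).S j = sb (insn G j) := rfl

/-- words derivable in `G` are over its alphabet -/
theorem der_alph {w : List ℕ} (H : Relation.ReflTransGen G.Step G.ax w) :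
    ∀ c ∈ w, c ∈ G.alph := by
  induction H with
  | refl => exact G.ax_alph
  | tail _ h ih =>
    obtain ⟨h, hh, H⟩ := h
    intro c hc
    obtain ⟨a, ha, u, hu, hb⟩ := H.mem hc
    exact G.img_alph h hh a (ih a ha) u hu c hb

/-- the full routine of a table -/
theorem run_full_lt {r : ℕ} {h : ℕ → Finset (List ℕ)} (hr : G.tables[r]? = some h) {w : List ℕ}
    (hw : ∀ c ∈ w, c ∈ G.alph) {z : List DL} : Run ((rr G r).map sb) (w.map .u) z ↔
      ∃ w', Par (fun c => (h c : Set (List ℕ))) w w' ∧ z = w'.map .u := by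
  have hI : ∀ c, img G r c = (h c).image (List.map .q) := by
    intro c; unfold img; rw [hr]
  have hmem := List.mem_of_getElem? hr
  rw [rr, rou, List.map_append, run_app]
  have e1 : ∀ y, Run ((ph1 G.alph.toList (img G r)).map sb) (w.map .u) y ↔
      ∃ w', Par (fun c => (h c : Set (List ℕ))) w w' ∧ y = w'.map .q := by
    intro y
    rw [run_ph1 (Finset.nodup_toList _) (img_not_u G) (fun c hc => Finset.mem_toList.2 (hw c hc)),
      ← par_image]
    simp only [hI, Finset.coe_image]
  have e2 : ∀ w', Par (fun c => (h c : Set (List ℕ))) w w' → ∀ z,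
      Run ((ph2 G.alph.toList).map sb) (w'.map .q) z ↔ z = w'.map .u := by
    intro w' hw' z
    rw [run_ph2 (Finset.nodup_toList _), List.map_map]
    · rfl
    · intro c hc
      rw [List.mem_map] at hc
      obtain ⟨a, ha, h1⟩ := hc
      cases h1
      obtain ⟨b, hb, u, hu, hb'⟩ := hw'.mem ha
      exact Finset.mem_toList.2 (G.img_alph h hmem b (hw b hb) u hu c hb')
  constructor
  · rintro ⟨y, h1, h2⟩
    obtain ⟨w', h3, rfl⟩ := (e1 y).1 h1
    exact ⟨w', h3, (e2 w' h3 z).1 h2⟩
  · rintro ⟨w', h1, h2⟩
    exact ⟨w'.map .q, (e1 _).2 ⟨w', h1, rfl⟩, (e2 w' h1 z).2 h2⟩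

theorem run_full_last {w : List ℕ} (hw : ∀ c ∈ w, c ∈ G.alph) {z : List DL} :
    Run ((rr G G.tables.length).map sb) (w.map .u) z ↔ z = w.map (fin G) := by
  have hI : ∀ c, img G G.tables.length c = {[fin G c]} := by
    intro c; unfold img; rw [List.getElem?_eq_none le_rfl]
  rw [rr, rou, List.map_append, run_app]
  have e1 : ∀ y, Run ((ph1 G.alph.toList (img G G.tables.length)).map sb) (w.map .u) y ↔
      y = w.map (fin G) := by
    intro y
    rw [run_ph1 (Finset.nodup_toList _) (img_not_u G) (fun c hc => Finset.mem_toList.2 (hw c hc)),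
      ← par_det]
    simp only [hI, Finset.coe_singleton]
  have hfin : ∀ c, (∃ a, fin G c = .t a) ∨ fin G c = .x := by
    intro c; unfold fin; split_ifs
    · exact Or.inl ⟨c, rfl⟩
    · exact Or.inr rfl
  have e2 : ∀ z, Run ((ph2 G.alph.toList).map sb) (w.map (fin G)) z ↔ z = w.map (fin G) := by
    intro z
    rw [run_ph2 (Finset.nodup_toList _), List.map_map]
    · have : (rho ∘ fin G) = fin G := by
        funext c
        rcases hfin c with ⟨a, h⟩ | h <;> simp [h, rho]
      rw [this]
    · intro c hc
      rw [List.mem_map] at hc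
      obtain ⟨a, ha, h1⟩ := hc
      rcases hfin a with ⟨b, h⟩ | h <;> rw [h] at h1 <;> cases h1
  constructor
  · rintro ⟨y, h1, h2⟩
    rw [e1] at h1
    subst h1
    exact (e2 z).1 h2
  · intro h
    exact ⟨_, (e1 _).2 rfl, (e2 z).2 h⟩

/-- the meaning of the configurations -/
def PGood (j : ℕ × ℕ) (z : List DL) : Prop :=
  ∃ w, Relation.ReflTransGen G.Step G.ax w ∧
    ((j.2 < 2 * G.alph.card ∧ Run (((rr G j.1).take j.2).map sb) (w.map .u) z) ∨
     (j.2 = 2 * G.alph.card ∧ j.1 < G.tables.length ∧ z = w.map .u) ∨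
     (j.2 = 2 * G.alph.card ∧ j.1 = G.tables.length ∧ z = w.map (fin G)))

theorem insn_end (r : ℕ) : insn G (r, 2 * G.alph.card) = (.y, {[]}) := by
  unfold insn
  rw [List.getElem?_eq_none (by rw [length_rr])]
  rfl

theorem take_insn {r i : ℕ} (hi : i < 2 * G.alph.card) :
    (rr G r).take (i + 1) = (rr G r).take i ++ [insn G (r, i)] := by
  have h : i < (rr G r).length := by rw [length_rr]; exact hi
  unfold insn
  rw [List.take_add_one, List.getElem?_eq_getElem h]
  rfl

theorem pgood_of_reach {j : ℕ × ℕ} {z : List DL} (H : (prg G).Reach j z) : PGood G j z := by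
  induction H with
  | init =>
    refine ⟨G.ax, Relation.ReflTransGen.refl, Or.inr (Or.inl ⟨rfl, ?_, rfl⟩)⟩
    exact List.length_pos_of_ne_nil G.tables_ne
  | step h1 h2 h3 ih =>
    rename_i j j' z z'
    obtain ⟨r, i⟩ := j
    obtain ⟨r', i'⟩ := j'
    change ((r, i), (r', i')) ∈ Finset.filter _ _ at h2
    rw [Finset.mem_filter, Finset.mem_product, Finset.mem_product, Finset.mem_product] at h2
    simp only [Finset.mem_range, Edge] at h2
    obtain ⟨⟨⟨hr, hi⟩, ⟨hr', hi'⟩⟩, he⟩ := h2
    rw [prg_S] at h3
    obtain ⟨w, hw, hz⟩ := ih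
    rcases he with ⟨rfl, rfl⟩ | ⟨rfl, hrR, rfl⟩
    · have hrun : Run (((rr G r').take (i + 1)).map sb) (w.map .u) z' := by
        rcases hz with ⟨_, hz⟩ | ⟨h, _⟩ | ⟨h, _⟩
        · rw [take_insn G (by omega), List.map_append, run_app]
          exact ⟨z, hz, z', h3, rfl⟩
        · simp only at h; omega
        · simp only at h; omega
      rcases Nat.lt_or_ge (i + 1) (2 * G.alph.card) with h | h
      · exact ⟨w, hw, Or.inl ⟨h, hrun⟩⟩
      · have hK : i + 1 = 2 * G.alph.card := by omega
        rw [List.take_of_length_le (by rw [length_rr, hK])] at hrun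
        rcases Nat.lt_or_ge r' G.tables.length with hlt | hge
        · rw [run_full_lt G (List.getElem?_eq_getElem hlt) (der_alph G hw)] at hrun
          obtain ⟨w', h5, h6⟩ := hrun
          exact ⟨w', hw.tail ⟨_, List.getElem_mem hlt, h5⟩, Or.inr (Or.inl ⟨hK, hlt, h6⟩)⟩
        · have : r' = G.tables.length := by omega
          subst this
          rw [run_full_last G (der_alph G hw)] at hrun
          exact ⟨w, hw, Or.inr (Or.inr ⟨hK, rfl, hrun⟩)⟩
    · rcases hz with ⟨h, _⟩ | ⟨_, _, rfl⟩ | ⟨_, h, _⟩
      · simp only at h; omega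
      · have : z' = w.map .u := by
          rw [insn_end] at h3
          refine (par_id fun c hc => ?_).1 h3
          rw [List.mem_map] at hc
          obtain ⟨a, _, rfl⟩ := hc
          simp [sb]
        subst this
        have := card_pos G
        exact ⟨w, hw, Or.inl ⟨by simp only; omega, rfl⟩⟩
      · simp only at h; omega

theorem reach_walk {r : ℕ} (hr : r < G.tables.length + 1) {x : List DL}
    (h0 : (prg G).Reach (r, 0) x) (i : ℕ) : i < 2 * G.alph.card + 1 → ∀ z,
    Run (((rr G r).take i).map sb) x z → (prg G).Reach (r, i) z := by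
  induction i with
  | zero => intro _ z hz; simp only [List.take_zero, List.map_nil, Run] at hz; subst hz; exact h0
  | succ i ih =>
    intro hi z hz
    rw [take_insn G (by omega), List.map_append, run_app] at hz
    obtain ⟨y, h1, y', h2, h3⟩ := hz
    change z = y' at h3
    subst h3
    refine Prog.Reach.step (ih (by omega) y h1) ?_ h2
    change ((r, i), (r, i + 1)) ∈ Finset.filter _ _
    rw [Finset.mem_filter, Finset.mem_product, Finset.mem_product, Finset.mem_product]
    simp only [Finset.mem_range, Edge]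
    exact ⟨⟨⟨hr, by omega⟩, ⟨hr, hi⟩⟩, Or.inl ⟨trivial, trivial⟩⟩

theorem reach_jump {r r' : ℕ} (hr : r < G.tables.length) (hr' : r' < G.tables.length + 1)
    {w : List ℕ} (h0 : (prg G).Reach (r, 2 * G.alph.card) (w.map .u)) :
    (prg G).Reach (r', 0) (w.map .u) := by
  refine Prog.Reach.step h0 ?_ ?_
  · change ((r, 2 * G.alph.card), (r', 0)) ∈ Finset.filter _ _
    rw [Finset.mem_filter, Finset.mem_product, Finset.mem_product, Finset.mem_product]
    simp only [Finset.mem_range, Edge]
    exact ⟨⟨⟨by omega, by omega⟩, ⟨hr', by omega⟩⟩, Or.inr ⟨trivial, hr, trivial⟩⟩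
  · rw [prg_S, insn_end]
    refine (par_id fun c hc => ?_).2 rfl
    rw [List.mem_map] at hc
    obtain ⟨a, _, rfl⟩ := hc
    simp [sb]

theorem reach_der {w : List ℕ} (H : Relation.ReflTransGen G.Step G.ax w) :
    ∃ r < G.tables.length, (prg G).Reach (r, 2 * G.alph.card) (w.map .u) := by
  induction H with
  | refl => exact ⟨0, List.length_pos_of_ne_nil G.tables_ne, Prog.Reach.init⟩
  | tail h0 h ih =>
    rename_i w w'
    obtain ⟨r, hr, h1⟩ := ih
    obtain ⟨h, hh, H⟩ := h
    obtain ⟨r', hr', h2⟩ := List.getElem_of_mem hh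
    refine ⟨r', hr', ?_⟩
    refine reach_walk G (by omega) (reach_jump G hr (r' := r') (by omega) h1) _ (by omega) _ ?_
    rw [List.take_of_length_le (by rw [length_rr])]
    rw [run_full_lt G (List.getElem?_eq_getElem hr') (der_alph G h0)]
    exact ⟨w', by rw [h2]; exact H, rfl⟩

theorem reach_halt {w : List ℕ} (H : Relation.ReflTransGen G.Step G.ax w) :
    (prg G).Reach (prg G).halt (w.map (fin G)) := by
  obtain ⟨r, hr, h1⟩ := reach_der G H
  refine reach_walk G (by omega) (reach_jump G hr (r' := G.tables.length) (by omega) h1) _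
    (by omega) _ ?_
  rw [List.take_of_length_le (by rw [length_rr])]
  exact (run_full_last G (der_alph G H)).2 rfl

theorem halt_iff {z : List DL} : (prg G).Reach (prg G).halt z ↔
    ∃ w, Relation.ReflTransGen G.Step G.ax w ∧ z = w.map (fin G) := by
  constructor
  · intro H
    obtain ⟨w, hw, h⟩ := pgood_of_reach G H
    rcases h with ⟨h, _⟩ | ⟨_, h, _⟩ | ⟨_, _, h⟩
    · exact absurd h (lt_irrefl _)
    · exact absurd h (lt_irrefl _)
    · exact ⟨w, hw, h⟩
  · rintro ⟨w, hw, rfl⟩
    exact reach_halt G hw

theorem prg_sys_lang : (prg G).sys.lang = (List.map (fun c => Lt.d (DL.t c))) '' G.lang := by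
  have hfin : ∀ c, (c ∈ G.term ∧ fin G c = .t c) ∨ (c ∉ G.term ∧ fin G c = .x) := by
    intro c; unfold fin; split_ifs with h
    · exact Or.inl ⟨h, rfl⟩
    · exact Or.inr ⟨h, rfl⟩
  rw [Prog.lang_eq]
  · ext v
    constructor
    · rintro ⟨z, h1, h2, rfl⟩
      obtain ⟨w, hw, rfl⟩ := (halt_iff G).1 h1
      have h3 : ∀ c ∈ w, c ∈ G.term := by
        intro c hc
        have h4 := h2 (fin G c) (List.mem_map_of_mem hc)
        change fin G c ∈ G.term.image DL.t at h4
        rw [Finset.mem_image] at h4
        obtain ⟨a, ha, h4⟩ := h4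
        rcases hfin c with ⟨h, _⟩ | ⟨_, h⟩
        · exact h
        · rw [h] at h4; cases h4
      refine ⟨w, ⟨h3, hw⟩, ?_⟩
      rw [List.map_map]
      refine List.map_congr_left fun c hc => ?_
      rcases hfin c with ⟨_, h⟩ | ⟨h, _⟩
      · simp [h]
      · exact absurd (h3 c hc) h
    · rintro ⟨w, ⟨h1, h2⟩, rfl⟩
      refine ⟨w.map (fin G), reach_halt G h2, ?_, ?_⟩
      · intro a ha
        rw [List.mem_map] at ha
        obtain ⟨c, hc, rfl⟩ := ha
        change fin G c ∈ G.term.image DL.t
        rcases hfin c with ⟨h, h'⟩ | ⟨h, _⟩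
        · rw [h']; exact Finset.mem_image_of_mem _ h
        · exact absurd (h1 c hc) h
      · rw [List.map_map]
        refine List.map_congr_left fun c hc => ?_
        rcases hfin c with ⟨_, h⟩ | ⟨h, _⟩
        · simp [h]
        · exact absurd (h1 c hc) h
  · intro z hz j _ hj
    obtain ⟨w, hw, rfl⟩ := (halt_iff G).1 hz
    rw [List.mem_map] at hj
    obtain ⟨c, _, hc⟩ := hj
    have h1 : (prg G).dl j = (insn G j).1 := rfl
    rw [h1] at hc
    rcases insn_cases G j with ⟨a, _, h⟩ | ⟨a, _, h⟩ | h <;> rw [h] at hc <;>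
      rcases hfin c with ⟨_, h'⟩ | ⟨_, h'⟩ <;> rw [h'] at hc <;> cases hc

instance : Countable DL := by
  let g : DL → ℕ × ℕ := fun
    | .t c => (0, c)
    | .u c => (1, c)
    | .q c => (2, c)
    | .x => (3, 0)
    | .y => (4, 0)
  have hg : Function.Injective g := by
    intro a b h
    cases a <;> cases b <;> simp_all [g]
  exact hg.countable

instance : Countable (Lt (ℕ × ℕ) DL) := by
  let g : Lt (ℕ × ℕ) DL → ℕ × Option (ℕ × ℕ) × Option DL := fun
    | .d a => (0, none, some a)
    | .p j => (1, some j, none)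
    | .e j => (2, some j, none)
    | .v a => (3, none, some a)
    | .f => (4, none, none)
  have hg : Function.Injective g := by
    intro a b h
    cases a <;> cases b <;> simp_all [g]
  exact hg.countable

theorem exists_phi (b : ℕ) : ∃ φ : Lt (ℕ × ℕ) DL → ℕ, Function.Injective φ ∧
    ∀ c < b, φ (.d (.t c)) = c := by
  classical
  obtain ⟨e, he⟩ := exists_injective_nat (Lt (ℕ × ℕ) DL)
  refine ⟨fun l => if h : ∃ c < b, l = .d (.t c) then h.choose else b + e l, ?_, ?_⟩
  · intro l l' hll
    by_cases h : ∃ c < b, l = .d (.t c)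
    · by_cases h' : ∃ c < b, l' = .d (.t c)
      · simp only [h, h', dif_pos] at hll
        rw [h.choose_spec.2, h'.choose_spec.2, hll]
      · simp only [h, h', dif_pos, dif_neg, not_false_eq_true] at hll
        have := h.choose_spec.1
        omega
    · by_cases h' : ∃ c < b, l' = .d (.t c)
      · simp only [h, h', dif_pos, dif_neg, not_false_eq_true] at hll
        have := h'.choose_spec.1
        omega
      · simp only [h, h', dif_neg, not_false_eq_true] at hll
        exact he (by omega)
  · intro c hc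
    have h : ∃ c' < b, (Lt.d (DL.t c) : Lt (ℕ × ℕ) DL) = .d (.t c') := ⟨c, hc, rfl⟩
    have h3 := h.choose_spec.2
    injection h3 with h4
    injection h4 with h5
    exact (dif_pos h).trans h5.symm

/-- every ET0L language is generated with two active letters per table -/
theorem collapse : ∃ G' : ET0L ℕ, G'.Restricted 2 ∧ G'.lang = G.lang := by
  obtain ⟨φ, h1, h2⟩ := exists_phi (G.term.sup id + 1)
  obtain ⟨G', h3, h4⟩ := rename (prg G).sys φ h1 2 (prg G).sys_restricted
  refine ⟨G', h3, ?_⟩
  rw [h4, prg_sys_lang, Set.image_image]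
  have : ∀ w ∈ G.lang, List.map φ (List.map (fun c => Lt.d (DL.t c)) w) = w := by
    intro w hw
    rw [List.map_map]
    conv_rhs => rw [← List.map_id w]
    refine List.map_congr_left fun c hc => ?_
    have h5 : c ≤ G.term.sup id := Finset.le_sup (f := id) (hw.1 c hc)
    exact h2 c (by omega)
  ext w
  constructor
  · rintro ⟨w', hw', rfl⟩
    simp only [this w' hw']
    exact hw'
  · intro hw
    exact ⟨w, hw, this w hw⟩

end Program

/-! ### The language `{a^n b^n c^n}` separates one from two active letters -/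

section Separation

/-- the language `{0^n 1^n 2^n : n ≥ 0}` -/
def L0 : Set (List ℕ) := {w | ∃ n, w = W n}

/-- a two-letter system for `L0`: the letters `3`, `4` are active -/
def tabX (c : ℕ) : Finset (List ℕ) := if c = 3 then {[0, 3, 1]} else if c = 4 then {[2, 4]} else {[c]}

def tabY (c : ℕ) : Finset (List ℕ) := if c = 3 then {[]} else if c = 4 then {[]} else {[c]}

def G0 : ET0L ℕ where
  alph := {0, 1, 2, 3, 4}
  tables := [tabX, tabY]
  ax := [3, 4]
  term := {0, 1, 2}
  tables_ne := by simp
  ax_ne := by simp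
  ax_alph := by decide
  term_alph := by decide
  img_ne := by
    intro h hh c _
    simp only [List.mem_cons, List.not_mem_nil, or_false] at hh
    rcases hh with rfl | rfl
    · unfold tabX; split_ifs <;> exact Finset.singleton_nonempty _
    · unfold tabY; split_ifs <;> exact Finset.singleton_nonempty _
  img_alph := by
    intro h hh c hc u hu d hd
    simp only [List.mem_cons, List.not_mem_nil, or_false] at hh
    rcases hh with rfl | rfl
    · unfold tabX at hu
      split_ifs at hu <;> rw [Finset.mem_singleton] at hu <;> subst hu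
      · simp only [List.mem_cons, List.not_mem_nil, or_false] at hd
        rcases hd with rfl | rfl | rfl <;> decide
      · simp only [List.mem_cons, List.not_mem_nil, or_false] at hd
        rcases hd with rfl | rfl <;> decide
      · rw [List.mem_singleton] at hd
        rw [hd]; exact hc
    · unfold tabY at hu
      split_ifs at hu <;> rw [Finset.mem_singleton] at hu <;> subst hu
      · simp at hd
      · simp at hd
      · rw [List.mem_singleton] at hd
        rw [hd]; exact hc

theorem G0_restricted : G0.Restricted 2 := by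
  intro h hh
  change h ∈ [tabX, tabY] at hh
  simp only [List.mem_cons, List.not_mem_nil, or_false] at hh
  refine (Finset.card_le_card (t := {3, 4}) ?_).trans Finset.card_le_two
  intro c hc
  rw [Finset.mem_filter] at hc
  rw [Finset.mem_insert, Finset.mem_singleton]
  by_contra h1
  rw [not_or] at h1
  rcases hh with rfl | rfl
  · exact hc.2 (by simp [tabX, h1])
  · exact hc.2 (by simp [tabY, h1])

/-- intermediate words of `G0` -/
def U (n : ℕ) : List ℕ :=
  List.replicate n 0 ++ ([3] ++ (List.replicate n 1 ++ (List.replicate n 2 ++ [4])))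

/-- the value of the deterministic table `tabX` -/
def fX (c : ℕ) : List ℕ := if c = 3 then [0, 3, 1] else if c = 4 then [2, 4] else [c]

def fY (c : ℕ) : List ℕ := if c = 3 then [] else if c = 4 then [] else [c]

theorem par_flat {β : Type} {g : ℕ → List β} {w : List ℕ} {z : List β} :
    Par (fun c => {g c}) w z ↔ z = w.flatMap g := by
  induction w generalizing z with
  | nil =>
    constructor
    · intro H; rw [par_nil H]; rfl
    · rintro rfl; exact Par.nil
  | cons c w ih =>
    constructor
    · intro H
      cases H with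
      | cons hu H =>
        rw [Set.mem_singleton_iff.1 hu, ih.1 H]; rfl
    · rintro rfl
      exact Par.cons (u := g c) rfl (ih.2 rfl)

theorem parX {w z : List ℕ} : Par (fun c => (tabX c : Set (List ℕ))) w z ↔ z = w.flatMap fX := by
  rw [← par_flat]
  refine par_congr fun c _ => ?_
  unfold tabX fX
  split_ifs <;> simp

theorem parY {w z : List ℕ} : Par (fun c => (tabY c : Set (List ℕ))) w z ↔ z = w.flatMap fY := by
  rw [← par_flat]
  refine par_congr fun c _ => ?_
  unfold tabY fY
  split_ifs <;> simp

theorem flat_rep {g : ℕ → List ℕ} {c : ℕ} (h : g c = [c]) (n : ℕ) :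
    (List.replicate n c).flatMap g = List.replicate n c := by
  induction n with
  | zero => rfl
  | succ n ih => rw [List.replicate_succ, List.flatMap_cons, ih, h]; rfl

theorem U_X (n : ℕ) : (U n).flatMap fX = U (n + 1) := by
  unfold U
  simp only [List.flatMap_append]
  rw [flat_rep (c := 0) rfl, flat_rep (c := 1) rfl, flat_rep (c := 2) rfl]
  have h3 : [3].flatMap fX = [0, 3, 1] := rfl
  have h4 : [4].flatMap fX = [2, 4] := rfl
  rw [h3, h4, List.replicate_succ' (n := n) (a := 0), List.replicate_succ (n := n) (a := 1),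
    List.replicate_succ' (n := n) (a := 2)]
  simp

theorem U_Y (n : ℕ) : (U n).flatMap fY = W n := by
  unfold U W
  simp only [List.flatMap_append]
  rw [flat_rep (c := 0) rfl, flat_rep (c := 1) rfl, flat_rep (c := 2) rfl]
  have h3 : [3].flatMap fY = [] := rfl
  have h4 : [4].flatMap fY = [] := rfl
  rw [h3, h4]
  simp

theorem W_X (n : ℕ) : (W n).flatMap fX = W n := by
  unfold W
  simp only [List.flatMap_append]
  rw [flat_rep (c := 0) rfl, flat_rep (c := 1) rfl, flat_rep (c := 2) rfl]

theorem W_Y (n : ℕ) : (W n).flatMap fY = W n := by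
  unfold W
  simp only [List.flatMap_append]
  rw [flat_rep (c := 0) rfl, flat_rep (c := 1) rfl, flat_rep (c := 2) rfl]

theorem G0_der {w : List ℕ} : Relation.ReflTransGen G0.Step G0.ax w ↔
    (∃ n, w = U n) ∨ ∃ n, w = W n := by
  constructor
  · intro H
    induction H with
    | refl => exact Or.inl ⟨0, rfl⟩
    | tail _ h ih =>
      obtain ⟨h, hh, H⟩ := h
      change h ∈ [tabX, tabY] at hh
      simp only [List.mem_cons, List.not_mem_nil, or_false] at hh
      rcases hh with rfl | rfl
      · rw [parX] at H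
        subst H
        rcases ih with ⟨n, rfl⟩ | ⟨n, rfl⟩
        · exact Or.inl ⟨n + 1, U_X n⟩
        · exact Or.inr ⟨n, W_X n⟩
      · rw [parY] at H
        subst H
        rcases ih with ⟨n, rfl⟩ | ⟨n, rfl⟩
        · exact Or.inr ⟨n, U_Y n⟩
        · exact Or.inr ⟨n, W_Y n⟩
  · have hU : ∀ n, Relation.ReflTransGen G0.Step G0.ax (U n) := by
      intro n
      induction n with
      | zero => exact Relation.ReflTransGen.refl
      | succ n ih =>
        refine ih.tail ⟨tabX, by simp [G0], ?_⟩
        rw [parX, U_X]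
    rintro (⟨n, rfl⟩ | ⟨n, rfl⟩)
    · exact hU n
    · refine (hU n).tail ⟨tabY, by simp [G0], ?_⟩
      rw [parY, U_Y]

theorem G0_lang : G0.lang = L0 := by
  ext w
  constructor
  · rintro ⟨h1, h2⟩
    rcases G0_der.1 h2 with ⟨n, rfl⟩ | ⟨n, rfl⟩
    · exfalso
      have := h1 3 (by simp [U])
      revert this
      decide
    · exact ⟨n, rfl⟩
  · rintro ⟨n, rfl⟩
    refine ⟨?_, G0_der.2 (Or.inr ⟨n, rfl⟩)⟩
    intro c hc
    unfold W at hc
    rw [List.mem_append, List.mem_append] at hc
    rcases hc with hc | hc | hc <;> rw [List.eq_of_mem_replicate hc] <;> decide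

/-- `L0` is not generated with one active letter per table -/
theorem not_one (G : ET0L ℕ) (h1 : G.Restricted 1) (hL : G.lang = L0) : False := by
  classical
  obtain ⟨c0, hc0⟩ := List.exists_mem_of_ne_nil _ G.ax_ne
  -- normalised tables
  let nm : (ℕ → Finset (List ℕ)) → ℕ → Set (List ℕ) :=
    fun h c => if c ∈ G.alph then (h c : Set (List ℕ)) else {[c]}
  let tabs : Set (ℕ → Set (List ℕ)) := {s | ∃ h ∈ G.tables, s = nm h}
  have hact : ∀ s ∈ tabs, ∃ d ∈ G.alph, ∀ c, c ≠ d → s c = {[c]} := by
    rintro s ⟨h, hh, rfl⟩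
    have h2 := h1 h hh
    rw [Finset.card_le_one_iff_subset_singleton] at h2
    obtain ⟨d, hd⟩ := h2
    have key : ∀ c ∈ G.alph, c ≠ d → h c = {[c]} := by
      intro c hc hcd
      by_contra h3
      exact hcd (Finset.mem_singleton.1 (hd (Finset.mem_filter.2 ⟨hc, h3⟩)))
    by_cases hd' : d ∈ G.alph
    · refine ⟨d, hd', fun c hcd => ?_⟩
      by_cases hc : c ∈ G.alph
      · simp [nm, hc, key c hc hcd]
      · simp [nm, hc]
    · refine ⟨c0, G.ax_alph c0 hc0, fun c _ => ?_⟩
      by_cases hc : c ∈ G.alph
      · simp [nm, hc, key c hc (fun h => hd' (h ▸ hc))]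
      · simp [nm, hc]
  let act : (ℕ → Set (List ℕ)) → ℕ := fun s =>
    if h : ∃ d ∈ G.alph, ∀ c, c ≠ d → s c = {[c]} then h.choose else 0
  have hact' : ∀ s ∈ tabs, act s ∈ G.alph ∧ ∀ c, c ≠ act s → s c = {[c]} := by
    intro s hs
    have h2 := hact s hs
    simp only [act, h2, dif_pos]
    exact h2.choose_spec
  have hpar : ∀ h, ∀ x y : List ℕ, (∀ c ∈ x, c ∈ G.alph) →
      (Par (nm h) x y ↔ Par (fun c => (h c : Set (List ℕ))) x y) := by
    intro h x y hx
    refine par_congr fun c hc => ?_
    simp [nm, hx c hc]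
  have hrun : ∀ w, Relation.ReflTransGen G.Step G.ax w ↔
      ∃ hs, (∀ s ∈ hs, s ∈ tabs) ∧ Run hs G.ax w := by
    intro w
    constructor
    · intro H
      induction H with
      | refl => exact ⟨[], by simp, rfl⟩
      | tail h0 h ih =>
        obtain ⟨hs, h2, h3⟩ := ih
        obtain ⟨h, hh, H⟩ := h
        refine ⟨hs ++ [nm h], ?_, run_app.2 ⟨_, h3, _, (hpar h _ _ (der_alph G h0)).2 H, rfl⟩⟩
        intro s hs'
        rw [List.mem_append, List.mem_singleton] at hs'
        rcases hs' with hs' | rfl
        · exact h2 s hs'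
        · exact ⟨h, hh, rfl⟩
    · rintro ⟨hs, h2, h3⟩
      have : ∀ (hs : List (ℕ → Set (List ℕ))) (x : List ℕ), (∀ s ∈ hs, s ∈ tabs) →
          Relation.ReflTransGen G.Step G.ax x → Run hs x w →
          Relation.ReflTransGen G.Step G.ax w := by
        intro hs
        induction hs with
        | nil => intro x _ hx h; change w = x at h; rw [h]; exact hx
        | cons s hs ih =>
          intro x h4 hx h
          obtain ⟨y, h5, h6⟩ := h
          obtain ⟨h, hh, rfl⟩ := h4 s (by simp)
          exact ih y (fun s hs => h4 s (by simp [hs]))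
            (hx.tail ⟨h, hh, (hpar h _ _ (der_alph G hx)).1 h5⟩) h6
      exact this hs G.ax h2 Relation.ReflTransGen.refl h3
  obtain ⟨M, hM⟩ : ∃ M : ℕ, ∀ h ∈ G.tables, ∀ c ∈ G.alph, ∀ u ∈ h c, u.length ≤ M := by
    refine ⟨(G.tables.map (fun h => G.alph.sup fun c => (h c).sup List.length)).sum, ?_⟩
    intro h hh c hc u hu
    calc u.length ≤ (h c).sup List.length := Finset.le_sup (f := List.length) hu
      _ ≤ G.alph.sup fun c => (h c).sup List.length :=
        Finset.le_sup (f := fun c => (h c).sup List.length) hc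
      _ ≤ (G.tables.map (fun h => G.alph.sup fun c => (h c).sup List.length)).sum :=
        List.single_le_sum (by simp) _
          (List.mem_map_of_mem (f := fun h => G.alph.sup fun c => (h c).sup List.length) hh)
  refine lower (tabs := tabs) (act := act) (ω := G.ax) (D := {c | c ∈ G.term}) G.alph hact' ?_
    (M := M + 1) (by omega) ?_
  · intro w
    rw [← hrun]
    change w ∈ G.lang ↔ _
    rw [hL]
    rfl
  · rintro s ⟨h, hh, rfl⟩ c u hu
    by_cases hc : c ∈ G.alph
    · simp only [nm, hc, if_true] at hu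
      exact (hM h hh c hc u hu).trans (by omega)
    · simp only [nm, hc, if_false, Set.mem_singleton_iff] at hu
      subst hu
      simp

end Separation

theorem fam_mono {k l : ℕ} (h : k ≤ l) : Fam k ⊆ Fam l := by
  rintro L ⟨G, h1, h2⟩
  exact ⟨G, fun t ht => (h1 t ht).trans h, h2⟩

theorem fam_collapse (k : ℕ) : Fam k ⊆ Fam 2 := by
  rintro L ⟨G, _, rfl⟩
  exact collapse G

/-- **MP_4de4a9_lc, Q1.** The least positive `ℓ` such that the families of the languages of
`k`-restricted and of `(k+1)`-restricted ET0L systems coincide for all `k ≥ ℓ` is `2`. -/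
theorem result : IsLeast {l : ℕ | 1 ≤ l ∧ ∀ k, l ≤ k → Fam k = Fam (k + 1)} 2 := by
  constructor
  · refine ⟨by omega, fun k hk => Set.Subset.antisymm (fam_mono (by omega)) ?_⟩
    exact (fam_collapse (k + 1)).trans (fam_mono hk)
  · rintro l ⟨h1, h2⟩
    by_contra h3
    have hl : l = 1 := by omega
    subst hl
    have h4 := h2 1 le_rfl
    have h5 : L0 ∈ Fam (1 + 1) := ⟨G0, G0_restricted, G0_lang⟩
    rw [← h4] at h5
    obtain ⟨G, h6, h7⟩ := h5
    exact not_one G h6 h7

end Pool.Agent.Results.MP_4de4a9_lc.CollapseTwo
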